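import Pool.Agent.R922.WN.Join

/-!
# Assembly of the path from `A` to `B`
-/

open Set

namespace Pool.Agent.R922.WN

variable {𝓐 : Type*} [CStarAlgebra 𝓐]

/-- segment inside the functional calculus, conjugated by `U` -/
lemma seg {A U : 𝓐} (hA : IsStarNormal A) (hf : (spectrum ℂ A).Finite)
    (hU : U * star U = 1) (hU' : ‖U‖ ≤ 1) (r : ℂ → ℂ) {D : ℝ} (hD : 0 ≤ D)
    (hr : ∀ z ∈ spectrum ℂ A, ‖z - r z‖ ≤ D) :
    Joined' (star U * A * U) (star U * cfc r A * U) D := by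
  have hc := cont_fin (A := A) hf
  have h := Joined'.of_lip (𝓐 := 𝓐)
    (γ := fun t => star U * cfc (fun z => (1 - (t:ℂ)) * z + (t:ℂ) * r z) A * U) hD ?_ ?_
  · have e0 : star U * cfc (fun z => (1 - ((0:ℝ):ℂ)) * z + ((0:ℝ):ℂ) * r z) A * U
        = star U * A * U := by
      have : (fun z : ℂ => (1 - ((0:ℝ):ℂ)) * z + ((0:ℝ):ℂ) * r z) = fun z => z := by
        funext z; simp
      rw [this, cfc_id' ℂ A]
    have e1 : star U * cfc (fun z => (1 - ((1:ℝ):ℂ)) * z + ((1:ℝ):ℂ) * r z) A * U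
        = star U * cfc r A * U := by
      have : (fun z : ℂ => (1 - ((1:ℝ):ℂ)) * z + ((1:ℝ):ℂ) * r z) = r := by
        funext z; simp
      rw [this]
    rw [← e0, ← e1]
    exact h
  · intro s _ t _
    have e : star U * cfc (fun z => (1 - (t:ℂ)) * z + (t:ℂ) * r z) A * U
        - star U * cfc (fun z => (1 - (s:ℂ)) * z + (s:ℂ) * r z) A * U
        = star U * (cfc (fun z => ((1 - (t:ℂ)) * z + (t:ℂ) * r z)
          - ((1 - (s:ℂ)) * z + (s:ℂ) * r z)) A) * U := by
      rw [cfc_sub _ _ A (hc _) (hc _)]; noncomm_ring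
    rw [e]
    have h1 : ‖cfc (fun z => ((1 - (t:ℂ)) * z + (t:ℂ) * r z)
          - ((1 - (s:ℂ)) * z + (s:ℂ) * r z)) A‖ ≤ |t - s| * D := by
      apply norm_cfc_le (by positivity)
      intro z hz
      have : ((1 - (t:ℂ)) * z + (t:ℂ) * r z) - ((1 - (s:ℂ)) * z + (s:ℂ) * r z)
        = -(((t - s : ℝ) : ℂ)) * (z - r z) := by push_cast; ring
      rw [this, norm_mul, norm_neg, Complex.norm_real, Real.norm_eq_abs]
      exact mul_le_mul_of_nonneg_left (hr z hz) (abs_nonneg _)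
    have := mul_le_of (mul_le_of (by rw [norm_star]; exact hU' : ‖star U‖ ≤ 1) h1) hU'
    linarith
  · intro s _
    have hN : IsStarNormal (cfc (fun z => (1 - (s:ℂ)) * z + (s:ℂ) * r z) A) :=
      cfc_predicate (p := IsStarNormal) _ _
    set N := cfc (fun z => (1 - (s:ℂ)) * z + (s:ℂ) * r z) A
    have hb := hN.star_comm_self
    constructor
    show star (star U * N * U) * (star U * N * U) = (star U * N * U) * star (star U * N * U)
    have e : star (star U * N * U) = star U * star N * U := by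
      simp only [star_mul, star_star]; noncomm_ring
    rw [e]
    calc star U * star N * U * (star U * N * U)
        = star U * star N * (U * star U) * N * U := by noncomm_ring
      _ = star U * (star N * N) * U := by rw [hU]; noncomm_ring
      _ = star U * (N * star N) * U := by rw [hb.eq]
      _ = star U * N * (U * star U) * star N * U := by rw [hU]; noncomm_ring
      _ = _ := by noncomm_ring

lemma dec_of {A : 𝓐} (hA : IsStarNormal A) (hf : (spectrum ℂ A).Finite) (r : ℂ → ℂ)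
    {J : Finset ℂ} (hJ : ∀ z ∈ spectrum ℂ A, r z ∈ J) : Dec J (Pj A r) :=
  ⟨Pj_star A r, Pj_mul_self hf r, fun _ _ h => Pj_mul_ne hA hf r h, Pj_sum hA hf r hJ⟩

/-- the intertwiner -/
noncomputable def SS (A B : 𝓐) (r : ℂ → ℂ) (J : Finset ℂ) : 𝓐 :=
  ∑ j ∈ J, Pj B r j * Pj A r j

section
variable {A B : 𝓐} (hA : IsStarNormal A) (hB : IsStarNormal B)
  (hfA : (spectrum ℂ A).Finite) (hfB : (spectrum ℂ B).Finite)
  {r : ℂ → ℂ} {J : Finset ℂ} (hJA : ∀ z ∈ spectrum ℂ A, r z ∈ J)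
  (hJB : ∀ z ∈ spectrum ℂ B, r z ∈ J)

include hA hB hfA hfB hJA hJB

lemma SS_norm : ‖SS A B r J‖ ≤ 1 := by
  have := pinch (dec_of hA hfA r hJA) (dec_of hB hfB r hJB) 1
  simp only [mul_one] at this
  exact this.trans norm_one_le

lemma SS_comm (A' B' : 𝓐) (hA' : ∀ j, Commute A' (Pj A r j)) (hB' : ∀ j, Commute B' (Pj B r j))
    (hE : ‖B' - A'‖ ≤ 1) : ‖B' * SS A B r J - SS A B r J * A'‖ ≤ 1 := by
  have e : B' * SS A B r J - SS A B r J * A'
      = ∑ j ∈ J, Pj B r j * (B' - A') * Pj A r j := by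
    unfold SS
    rw [Finset.mul_sum, Finset.sum_mul, ← Finset.sum_sub_distrib]
    apply Finset.sum_congr rfl
    intro j _
    calc B' * (Pj B r j * Pj A r j) - Pj B r j * Pj A r j * A'
        = (B' * Pj B r j) * Pj A r j - Pj B r j * (Pj A r j * A') := by noncomm_ring
      _ = (Pj B r j * B') * Pj A r j - Pj B r j * (A' * Pj A r j) := by
          rw [(hB' j).eq, (hA' j).eq]
      _ = _ := by noncomm_ring
  rw [e]
  exact (pinch (dec_of hA hfA r hJA) (dec_of hB hfB r hJB) _).trans hE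

lemma SS_inter (hE : ‖B - A‖ ≤ 1) (hX : ‖1 - SS A B r J‖ ≤ 1/4) : Inter A B (SS A B r J) where
  S1 := hX
  Sn := SS_norm hA hB hfA hfB hJA hJB
  E := hE
  F := SS_comm hA hB hfA hfB hJA hJB A B (fun j => Pj_comm A r j hA)
    (fun j => Pj_comm B r j hB) hE
  F' := SS_comm hA hB hfA hfB hJA hJB (star A) (star B) (fun j => Pj_comm' A r j hA)
    (fun j => Pj_comm' B r j hB) (by rw [← star_sub, norm_star]; exact hE)

lemma SS_mul_P {k : ℂ} (hk : k ∈ J) : SS A B r J * Pj A r k = Pj B r k * Pj A r k := by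
  have hP := dec_of hA hfA r hJA
  unfold SS
  rw [Finset.sum_mul, Finset.sum_eq_single k]
  · rw [mul_assoc, hP.idem]
  · intro j _ hj; rw [mul_assoc, hP.orth j k hj, mul_zero]
  · intro h; exact absurd hk h

lemma Q_mul_SS {k : ℂ} (hk : k ∈ J) : Pj B r k * SS A B r J = Pj B r k * Pj A r k := by
  have hQ := dec_of hB hfB r hJB
  unfold SS
  rw [Finset.mul_sum, Finset.sum_eq_single k]
  · rw [← mul_assoc, hQ.idem]
  · intro j _ hj; rw [← mul_assoc, hQ.orth k j (Ne.symm hj), zero_mul]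
  · intro h; exact absurd hk h

lemma T_comm {k : ℂ} (hk : k ∈ J) :
    Commute (star (SS A B r J) * SS A B r J) (Pj A r k) := by
  have h1 := SS_mul_P hA hB hfA hfB hJA hJB hk
  have h2 := Q_mul_SS hA hB hfA hfB hJA hJB hk
  have h3 : SS A B r J * Pj A r k = Pj B r k * SS A B r J := h1.trans h2.symm
  have h4 : Pj A r k * star (SS A B r J) = star (SS A B r J) * Pj B r k := by
    have := congrArg star h3
    rw [star_mul, star_mul, Pj_star, Pj_star] at this
    exact this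
  show star (SS A B r J) * SS A B r J * Pj A r k = Pj A r k * (star (SS A B r J) * SS A B r J)
  rw [mul_assoc, h3, ← mul_assoc, ← h4, mul_assoc]

lemma Uu_mul_P {k : ℂ} (hk : k ∈ J) :
    Uu (SS A B r J) * Pj A r k = Pj B r k * Uu (SS A B r J) := by
  have h1 := SS_mul_P hA hB hfA hfB hJA hJB hk
  have h2 := Q_mul_SS hA hB hfA hfB hJA hJB hk
  have h3 : SS A B r J * Pj A r k = Pj B r k * SS A B r J := h1.trans h2.symm
  have h4 := Dsq_comm (T_comm hA hB hfA hfB hJA hJB hk)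
  unfold Uu
  rw [mul_assoc, h4.eq, ← mul_assoc, h3, mul_assoc]

lemma Uu_mul_cfc : Uu (SS A B r J) * cfc r A = cfc r B * Uu (SS A B r J) := by
  rw [cfc_eq_sum hA hfA r hJA, cfc_eq_sum hB hfB r hJB, Finset.mul_sum, Finset.sum_mul]
  apply Finset.sum_congr rfl
  intro j hj
  rw [mul_smul_comm, smul_mul_assoc, Uu_mul_P hA hB hfA hfB hJA hJB hj]

theorem assemble {D : ℝ} (hD : 0 ≤ D) (hrA : ∀ z ∈ spectrum ℂ A, ‖z - r z‖ ≤ D)
    (hrB : ∀ z ∈ spectrum ℂ B, ‖z - r z‖ ≤ D + 1)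
    (hE : ‖B - A‖ ≤ 1) (hX : ‖1 - SS A B r J‖ ≤ 1/4) : Joined' A B (D + (D + 1) + 13) := by
  have hI := SS_inter hA hB hfA hfB hJA hJB hE hX
  set S := SS A B r J with hS
  have hUU : Uu S * star (Uu S) = 1 := Uu_mul_star hI.S1 hI.Sn
  have hUU' : star (Uu S) * Uu S = 1 := Uu_star_mul hI.S1 hI.Sn
  have hUn := norm_Uu hI.S1 hI.Sn
  have s1 : Joined' A (cfc r A) D := by
    have := seg (U := (1:𝓐)) hA hfA (by simp) norm_one_le r hD hrA
    simpa using this
  have s2 : Joined' (star (Uu S) * B * Uu S) (star (Uu S) * cfc r B * Uu S) (D + 1) :=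
    seg hB hfB hUU hUn r (by linarith) hrB
  have e2 : star (Uu S) * cfc r B * Uu S = cfc r A := by
    rw [mul_assoc, ← Uu_mul_cfc hA hB hfA hfB hJA hJB, ← mul_assoc, ← hS, hUU', one_mul]
  rw [e2] at s2
  have s3 : Joined' (Bt B S 0) (Bt B S 1) 13 :=
    Joined'.of_lip (by norm_num)
      (fun s hs t ht => norm_Bt_sub hI hs.1 hs.2 ht.1 ht.2)
      (fun t ht => Bt_normal hI hB ht.1 ht.2)
  have e3 : Bt B S 1 = star (Uu S) * B * Uu S := by unfold Bt; rw [St_one]
  rw [Bt_zero, e3] at s3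
  exact (s1.trans s2.symm).trans s3.symm

end

end Pool.Agent.R922.WN
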