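import Pool.Agent.R922.WN.Asm

/-!
# The clusters
-/

open Set

namespace Pool.Agent.R922.WN

/-- the graph on the finite set `s` joining points at distance at most `Δ` -/
def cg (s : Set ℂ) (Δ : ℝ) : SimpleGraph s where
  Adj x y := x ≠ y ∧ ‖(x : ℂ) - y‖ ≤ Δ
  symm := ⟨fun x y h => ⟨h.1.symm, by rw [norm_sub_rev]; exact h.2⟩⟩
  loopless := ⟨fun x h => h.1 rfl⟩

lemma walk_dist {s : Set ℂ} {Δ : ℝ} {x y : s} (p : (cg s Δ).Walk x y) :
    ‖(x : ℂ) - y‖ ≤ p.length * Δ := by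
  induction p with
  | nil => simp
  | cons h p ih =>
    rename_i u v w
    have : (u : ℂ) - w = (u - v) + (v - w) := by ring
    rw [this, SimpleGraph.Walk.length_cons]
    refine (norm_add_le _ _).trans ?_
    push_cast
    have := h.2
    linarith

lemma reach_dist {s : Set ℂ} (hs : s.Finite) {Δ : ℝ} (hΔ : 0 ≤ Δ) {x y : s}
    (h : (cg s Δ).Reachable x y) : ‖(x : ℂ) - y‖ ≤ (hs.toFinset.card - 1 : ℝ) * Δ := by
  classical
  haveI : Fintype s := hs.fintype
  obtain ⟨p⟩ := h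
  have h1 := (p.toPath.2).length_lt
  have h2 := walk_dist (p.toPath : (cg s Δ).Walk x y)
  have h3 : hs.toFinset.card = Fintype.card s := by
    rw [← Set.toFinset_card]; congr 1; ext; simp
  rw [← h3] at h1
  refine h2.trans (mul_le_mul_of_nonneg_right ?_ hΔ)
  have : ((p.toPath : (cg s Δ).Walk x y).length + 1 : ℕ) ≤ hs.toFinset.card := h1
  have : (((p.toPath : (cg s Δ).Walk x y).length + 1 : ℕ) : ℝ) ≤ hs.toFinset.card := by
    exact_mod_cast this
  push_cast at this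
  linarith

theorem exists_rep {s t : Set ℂ} (hs : s.Finite) {δ : ℝ} (hδ : 0 < δ)
    (hst : ∀ b ∈ t, ∃ a ∈ s, ‖b - a‖ ≤ 1) :
    ∃ r : ℂ → ℂ, (∀ z ∈ s, r z ∈ s) ∧ (∀ z ∈ t, r z ∈ s) ∧
      (∀ z ∈ s, ‖z - r z‖ ≤ (hs.toFinset.card - 1 : ℝ) * (δ + 2)) ∧
      (∀ z ∈ t, ‖z - r z‖ ≤ (hs.toFinset.card - 1 : ℝ) * (δ + 2) + 1) ∧
      ∀ a ∈ s, ∀ b ∈ t, r a ≠ r b → δ ≤ ‖b - a‖ := by
  classical
  rcases s.eq_empty_or_nonempty with h0 | ⟨z0, hz0⟩
  · subst h0
    refine ⟨id, by simp, ?_, by simp, ?_, by simp⟩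
    · intro z hz; obtain ⟨a, ha, _⟩ := hst z hz; exact absurd ha (Set.notMem_empty _)
    · intro z hz; obtain ⟨a, ha, _⟩ := hst z hz; exact absurd ha (Set.notMem_empty _)
  set G := cg s (δ + 2) with hG
  -- nearest point
  have hν : ∀ z : ℂ, ∃ a : s, (z ∈ s → (a : ℂ) = z) ∧ (z ∈ t → ‖z - a‖ ≤ 1) := by
    intro z
    by_cases h1 : z ∈ s
    · exact ⟨⟨z, h1⟩, fun _ => rfl, fun _ => by simp⟩
    · by_cases h2 : z ∈ t
      · obtain ⟨a, ha, hza⟩ := hst z h2
        exact ⟨⟨a, ha⟩, fun h => absurd h h1, fun _ => hza⟩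
      · exact ⟨⟨z0, hz0⟩, fun h => absurd h h1, fun h => absurd h h2⟩
  choose ν hν1 hν2 using hν
  set R : s → s := fun a => (G.connectedComponentMk a).out with hR
  have hRr : ∀ a, G.Reachable a (R a) := by
    intro a
    have : G.connectedComponentMk (R a) = G.connectedComponentMk a :=
      Quot.out_eq (G.connectedComponentMk a)
    exact (SimpleGraph.ConnectedComponent.exact this).symm
  have hRe : ∀ a b, G.Reachable a b → R a = R b := by
    intro a b h
    have : G.connectedComponentMk a = G.connectedComponentMk b :=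
      SimpleGraph.ConnectedComponent.sound h
    simp only [hR, this]
  have hΔ : 0 ≤ δ + 2 := by linarith
  refine ⟨fun z => R (ν z), fun z _ => (R (ν z)).2, fun z _ => (R (ν z)).2, ?_, ?_, ?_⟩
  · intro z hz
    have := reach_dist hs hΔ (hRr (ν z))
    rwa [hν1 z hz] at this
  · intro z hz
    have h1 := reach_dist hs hΔ (hRr (ν z))
    have h2 := hν2 z hz
    have : z - (R (ν z) : ℂ) = (z - ν z) + (ν z - R (ν z)) := by ring
    rw [this]
    refine (norm_add_le _ _).trans ?_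
    linarith
  · intro a ha b hb hab
    by_contra hlt
    push Not at hlt
    apply hab
    simp only
    congr 1
    apply hRe
    by_cases he : ν a = ν b
    · rw [he]
    · apply SimpleGraph.Adj.reachable
      refine ⟨he, ?_⟩
      rw [hν1 a ha]
      have h2 := hν2 b hb
      have : a - (ν b : ℂ) = -(b - a) + (b - ν b) := by ring
      rw [this]
      refine (norm_add_le _ _).trans ?_
      rw [norm_neg]
      linarith

variable {𝓐 : Type*} [CStarAlgebra 𝓐]

/-- eigenvalues of `B` are close to eigenvalues of `A` -/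
lemma spec_close {A B : 𝓐} (hA : IsStarNormal A) (hf : (spectrum ℂ A).Finite)
    (hE : ‖B - A‖ ≤ 1) {b : ℂ} (hb : b ∈ spectrum ℂ B) : ∃ a ∈ spectrum ℂ A, ‖b - a‖ ≤ 1 := by
  by_contra hcon
  push Not at hcon
  rcases subsingleton_or_nontrivial 𝓐 with hs | hn
  · rw [spectrum.of_subsingleton] at hb; exact absurd hb (Set.notMem_empty _)
  have hc := cont_fin (A := A) hf
  set R : 𝓐 := cfc (fun z => (b - z)⁻¹) A with hR
  have hRn : ‖R‖ < 1 := by
    apply norm_cfc_lt zero_lt_one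
    intro z hz
    rw [norm_inv]
    exact inv_lt_one_of_one_lt₀ (hcon z hz)
  have e1 : algebraMap ℂ 𝓐 b - A = cfc (fun z => b - z) A := by
    rw [cfc_sub (fun _ : ℂ => b) (fun z => z) A (hc _) (hc _), cfc_const b A, cfc_id' ℂ A]
  have hone : cfc (fun z => (b - z) * (b - z)⁻¹) A = (1 : 𝓐) := by
    rw [← cfc_const_one ℂ A]
    apply cfc_congr
    intro z hz
    have h5 := hcon z hz
    have h6 : b - z ≠ 0 := by
      intro h0; rw [h0, norm_zero] at h5; linarith
    simp [h6]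
  have h2 : (algebraMap ℂ 𝓐 b - A) * R = 1 := by
    rw [e1, hR, ← cfc_mul _ _ _ (hc _) (hc _), hone]
  have h3 : R * (algebraMap ℂ 𝓐 b - A) = 1 := by
    have : Commute R (cfc (fun z => b - z) A) := cfc_commute_cfc _ _ _
    rw [e1, this.eq, ← e1, h2]
  have hu : IsUnit (algebraMap ℂ 𝓐 b - A) := ⟨⟨_, R, h2, h3⟩, rfl⟩
  have hu2 : IsUnit (1 - R * (B - A)) := by
    have hlt : ‖R * (B - A)‖ < 1 := by
      calc ‖R * (B - A)‖ ≤ ‖R‖ * ‖B - A‖ := norm_mul_le _ _
        _ ≤ ‖R‖ * 1 := mul_le_mul_of_nonneg_left hE (norm_nonneg _)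
        _ < 1 := by linarith
    have := Units.isUnit (Units.oneSub (R * (B - A)) hlt)
    rwa [Units.val_oneSub] at this
  have e4 : algebraMap ℂ 𝓐 b - B = (algebraMap ℂ 𝓐 b - A) * (1 - R * (B - A)) := by
    calc algebraMap ℂ 𝓐 b - B = (algebraMap ℂ 𝓐 b - A) - 1 * (B - A) := by rw [one_mul]; abel
      _ = (algebraMap ℂ 𝓐 b - A) - ((algebraMap ℂ 𝓐 b - A) * R) * (B - A) := by rw [h2]
      _ = _ := by noncomm_ring
  have h7 : IsUnit (algebraMap ℂ 𝓐 b - B) := by rw [e4]; exact hu.mul hu2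
  exact (spectrum.mem_iff.1 hb) h7

end Pool.Agent.R922.WN
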