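import Pool.Agent.R922.WN.StepOne

/-!
# The Fourier bound `‖X‖ ≤ M / δ` with a universal constant
-/

open Set MeasureTheory
open scoped FourierTransform SchwartzMap RealInnerProductSpace ContDiff

namespace Pool.Agent.R922.WN

/-- `exp (i x)` -/
noncomputable def ex (x : ℝ) : ℂ := Complex.exp ((x : ℂ) * Complex.I)

lemma norm_ex (x : ℝ) : ‖ex x‖ = 1 := Complex.norm_exp_ofReal_mul_I x

lemma ex_zero : ex 0 = 1 := by simp [ex]

lemma ex_add (x y : ℝ) : ex (x + y) = ex x * ex y := by
  unfold ex; rw [← Complex.exp_add]; congr 1; push_cast; ring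

lemma continuous_ex : Continuous ex := by
  unfold ex; fun_prop

/-- a good kernel -/
structure Kern (k : ℝ → ℂ) : Prop where
  int : Integrable k
  int1 : Integrable (fun s => |s| * ‖k s‖)
  one : ∫ s, k s = 1
  van : ∀ ξ : ℝ, 1/2 ≤ |ξ| → ∫ s, ex (2 * Real.pi * s * ξ) * k s = 0

theorem exists_kern : ∃ k, Kern k := by
  let f : ContDiffBump (0 : ℝ) := ⟨1/4, 1/2, by norm_num, by norm_num⟩
  have hcs : HasCompactSupport (fun x : ℝ => ((f x : ℝ) : ℂ)) := by
    have := f.hasCompactSupport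
    exact this.comp_left (g := fun x : ℝ => (x : ℂ)) (by simp)
  have hcd : ContDiff ℝ ∞ (fun x : ℝ => ((f x : ℝ) : ℂ)) :=
    Complex.ofRealCLM.contDiff.comp f.contDiff
  let φ : 𝓢(ℝ, ℂ) := hcs.toSchwartzMap hcd
  let k : 𝓢(ℝ, ℂ) := 𝓕 φ
  have hinv : 𝓕⁻ k = φ := FourierTransform.fourierInv_fourier_eq φ
  have key : ∀ ξ : ℝ, ∫ s, ex (2 * Real.pi * s * ξ) * k s = ((f ξ : ℝ) : ℂ) := by
    intro ξ
    have h1 : (𝓕⁻ k : 𝓢(ℝ, ℂ)) ξ = φ ξ := by rw [hinv]
    rw [SchwartzMap.fourierInv_coe, Real.fourierInv_eq'] at h1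
    have h2 : φ ξ = ((f ξ : ℝ) : ℂ) := rfl
    rw [← h2, ← h1]
    apply integral_congr_ae
    filter_upwards with s
    simp only [smul_eq_mul, ex]
    congr 3
    simp only [RCLike.inner_apply, conj_trivial]
    push_cast; ring
  refine ⟨k, k.integrable, ?_, ?_, ?_⟩
  · have := k.integrable_pow_mul volume 1
    refine this.congr ?_
    filter_upwards with s
    simp
  · have := key 0
    simp only [mul_zero, ex_zero, one_mul] at this
    rw [this]
    have : f 0 = 1 := f.one_of_mem_closedBall (by simp [f.rIn_pos.le])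
    rw [this]; simp
  · intro ξ hξ
    rw [key ξ]
    have : f ξ = 0 := by
      apply f.zero_of_le_dist
      rw [Real.dist_eq, sub_zero]; exact hξ
    rw [this]; simp

variable {𝓐 : Type*} [CStarAlgebra 𝓐]

/-- Schur multiplier -/
noncomputable def TM (A B : 𝓐) (sA sB : Finset ℂ) (m : ℂ → ℂ → ℂ) (Z : 𝓐) : 𝓐 :=
  ∑ b ∈ sB, ∑ a ∈ sA, m b a • (ep B b * Z * ep A a)

section
variable {A B : 𝓐} {sA sB : Finset ℂ} (hA : Dec sA (ep A)) (hB : Dec sB (ep B))

lemma TM_congr {m m' : ℂ → ℂ → ℂ} (h : ∀ b ∈ sB, ∀ a ∈ sA, m b a = m' b a) (Z : 𝓐) :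
    TM A B sA sB m Z = TM A B sA sB m' Z := by
  unfold TM
  apply Finset.sum_congr rfl
  intro b hb
  apply Finset.sum_congr rfl
  intro a ha
  rw [h b hb a ha]

include hA hB in
lemma ep_TM_ep {m : ℂ → ℂ → ℂ} (Z : 𝓐) {a b : ℂ} (ha : a ∈ sA) (hb : b ∈ sB) :
    ep B b * TM A B sA sB m Z * ep A a = m b a • (ep B b * Z * ep A a) := by
  unfold TM
  rw [Finset.mul_sum, Finset.sum_mul, Finset.sum_eq_single b]
  · rw [Finset.mul_sum, Finset.sum_mul, Finset.sum_eq_single a]
    · rw [mul_smul_comm, smul_mul_assoc]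
      congr 1
      calc ep B b * (ep B b * Z * ep A a) * ep A a
          = (ep B b * ep B b) * Z * (ep A a * ep A a) := by noncomm_ring
        _ = _ := by rw [hB.idem, hA.idem]
    · intro c _ hc
      rw [mul_smul_comm, smul_mul_assoc]
      have : ep B b * (ep B b * Z * ep A c) * ep A a
          = (ep B b * ep B b) * Z * (ep A c * ep A a) := by noncomm_ring
      rw [this, hA.orth c a hc]; simp
    · intro h; exact absurd ha h
  · intro c _ hc
    rw [Finset.mul_sum, Finset.sum_mul]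
    apply Finset.sum_eq_zero
    intro d _
    rw [mul_smul_comm, smul_mul_assoc]
    have : ep B b * (ep B c * Z * ep A d) * ep A a
        = (ep B b * ep B c) * Z * (ep A d * ep A a) := by noncomm_ring
    rw [this, hB.orth b c (Ne.symm hc)]; simp
  · intro h; exact absurd hb h

include hA hB in
lemma TM_TM (m m' : ℂ → ℂ → ℂ) (Z : 𝓐) :
    TM A B sA sB m (TM A B sA sB m' Z) = TM A B sA sB (fun b a => m b a * m' b a) Z := by
  conv_lhs => unfold TM
  conv_rhs => unfold TM
  apply Finset.sum_congr rfl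
  intro b hb
  apply Finset.sum_congr rfl
  intro a ha
  have := ep_TM_ep (m := m') hA hB Z ha hb
  unfold TM at this
  rw [this, smul_smul]

lemma TM_smul (c : ℂ) (m : ℂ → ℂ → ℂ) (Z : 𝓐) :
    TM A B sA sB (fun b a => c * m b a) Z = c • TM A B sA sB m Z := by
  unfold TM
  simp only [Finset.smul_sum, smul_smul]

lemma TM_add (m m' : ℂ → ℂ → ℂ) (Z : 𝓐) :
    TM A B sA sB (fun b a => m b a + m' b a) Z = TM A B sA sB m Z + TM A B sA sB m' Z := by
  unfold TM
  simp only [← Finset.sum_add_distrib, add_smul]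

lemma TM_sub (m m' : ℂ → ℂ → ℂ) (Z : 𝓐) :
    TM A B sA sB (fun b a => m b a - m' b a) Z = TM A B sA sB m Z - TM A B sA sB m' Z := by
  unfold TM
  simp only [← Finset.sum_sub_distrib, sub_smul]

end

section
variable {A B : 𝓐} (hA : IsStarNormal A) (hB : IsStarNormal B)
  (hfA : (spectrum ℂ A).Finite) (hfB : (spectrum ℂ B).Finite)

lemma cfc_sum_ep (hA : IsStarNormal A) (hfA : (spectrum ℂ A).Finite) (f : ℂ → ℂ) :
    cfc f A = ∑ a ∈ hfA.toFinset, f a • ep A a := by
  calc cfc f A = cfc f A * ∑ a ∈ hfA.toFinset, ep A a := by rw [(ep_dec hA hfA).sum, mul_one]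
    _ = _ := by
      rw [Finset.mul_sum]
      apply Finset.sum_congr rfl
      intro a _
      exact cfc_mul_ep hfA a f

include hA hB

lemma TM_rank (f g : ℂ → ℂ) (Z : 𝓐) :
    TM A B hfA.toFinset hfB.toFinset (fun b a => f b * g a) Z = cfc f B * Z * cfc g A := by
  rw [cfc_sum_ep hB hfB f, cfc_sum_ep hA hfA g, Finset.sum_mul, Finset.sum_mul]
  unfold TM
  apply Finset.sum_congr rfl
  intro b _
  rw [Finset.mul_sum]
  apply Finset.sum_congr rfl
  intro a _
  simp only [smul_mul_assoc, mul_smul_comm, smul_smul]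
  rw [mul_comm (g a)]

lemma TM_one (Z : 𝓐) : TM A B hfA.toFinset hfB.toFinset (fun _ _ => 1) Z = Z := by
  have := TM_rank hA hB hfA hfB (fun _ => 1) (fun _ => 1) Z
  simp only [mul_one] at this
  rw [this, cfc_const_one ℂ A, cfc_const_one ℂ B]; simp

lemma TM_fst (f : ℂ → ℂ) (Z : 𝓐) :
    TM A B hfA.toFinset hfB.toFinset (fun b _ => f b) Z = cfc f B * Z := by
  have := TM_rank hA hB hfA hfB f (fun _ => 1) Z
  simp only [mul_one] at this
  rw [this, cfc_const_one ℂ A, mul_one]

lemma TM_snd (g : ℂ → ℂ) (Z : 𝓐) :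
    TM A B hfA.toFinset hfB.toFinset (fun _ a => g a) Z = Z * cfc g A := by
  have := TM_rank hA hB hfA hfB (fun _ => 1) g Z
  simp only [one_mul] at this
  rw [this, cfc_const_one ℂ B, one_mul]

lemma norm_TM_ex (h : ℂ → ℝ) (θ : ℝ) (Z : 𝓐) :
    ‖TM A B hfA.toFinset hfB.toFinset (fun b a => ex (θ * (h b - h a))) Z‖ ≤ ‖Z‖ := by
  have e : TM A B hfA.toFinset hfB.toFinset (fun b a => ex (θ * (h b - h a))) Z
      = cfc (fun b => ex (θ * h b)) B * Z * cfc (fun a => ex (-(θ * h a))) A := by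
    rw [← TM_rank hA hB hfA hfB]
    apply TM_congr
    intro b _ a _
    rw [← ex_add]; congr 1; ring
  rw [e]
  have h1 : ‖cfc (fun b => ex (θ * h b)) B‖ ≤ 1 :=
    norm_cfc_le zero_le_one (fun z _ => (norm_ex _).le)
  have h2 : ‖cfc (fun a => ex (-(θ * h a))) A‖ ≤ 1 :=
    norm_cfc_le zero_le_one (fun z _ => (norm_ex _).le)
  have := mul_le_of (mul_le_of h1 (le_refl ‖Z‖)) h2
  linarith

lemma norm_TM_mv (h : ℂ → ℝ) (θ : ℝ) (Z : 𝓐) :
    ‖TM A B hfA.toFinset hfB.toFinset (fun b a => ex (θ * (h b - h a))) Z - Z‖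
      ≤ |θ| * ‖TM A B hfA.toFinset hfB.toFinset (fun b a => ((h b - h a : ℝ) : ℂ)) Z‖ := by
  set W := TM A B hfA.toFinset hfB.toFinset (fun b a => ((h b - h a : ℝ) : ℂ)) Z with hW
  set g : ℝ → 𝓐 := fun θ => TM A B hfA.toFinset hfB.toFinset
    (fun b a => ex (θ * (h b - h a))) Z with hg
  have hder : ∀ θ : ℝ, HasDerivAt g (TM A B hfA.toFinset hfB.toFinset
      (fun b a => ex (θ * (h b - h a)) * (((h b - h a : ℝ) : ℂ) * Complex.I)) Z) θ := by
    intro θ
    simp only [hg]
    unfold TM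
    apply HasDerivAt.fun_sum
    intro b _
    apply HasDerivAt.fun_sum
    intro a _
    apply HasDerivAt.smul_const
    unfold ex
    have h1 : HasDerivAt (fun θ : ℝ => (((θ * (h b - h a) : ℝ)) : ℂ) * Complex.I)
        (((h b - h a : ℝ) : ℂ) * Complex.I) θ := by
      apply HasDerivAt.mul_const
      have h2 : HasDerivAt (fun θ : ℝ => θ * (h b - h a)) (h b - h a) θ := by
        simpa using (hasDerivAt_id θ).mul_const (h b - h a)
      exact h2.ofReal_comp
    exact h1.cexp
  have hbd : ∀ θ : ℝ, ‖TM A B hfA.toFinset hfB.toFinset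
      (fun b a => ex (θ * (h b - h a)) * (((h b - h a : ℝ) : ℂ) * Complex.I)) Z‖ ≤ ‖W‖ := by
    intro θ
    rw [← TM_TM (ep_dec hA hfA) (ep_dec hB hfB)]
    refine (norm_TM_ex hA hB hfA hfB h θ _).trans (le_of_eq ?_)
    have : TM A B hfA.toFinset hfB.toFinset (fun b a => ((h b - h a : ℝ) : ℂ) * Complex.I) Z
        = Complex.I • W := by
      rw [hW, ← TM_smul]
      apply TM_congr
      intro b _ a _
      ring
    rw [this, norm_smul, Complex.norm_I, one_mul]
  have h0 : g 0 = Z := by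
    simp only [hg, zero_mul, ex_zero]
    exact TM_one hA hB hfA hfB Z
  have := (convex_univ (𝕜 := ℝ) (E := ℝ)).norm_image_sub_le_of_norm_hasDerivWithin_le
    (f := g) (C := ‖W‖) (fun x _ => (hder x).hasDerivWithinAt) (fun x _ => hbd x)
    (mem_univ 0) (mem_univ θ)
  rw [h0, sub_zero, Real.norm_eq_abs] at this
  linarith

/-- the Fourier transform of the kernel -/
noncomputable def ph (k : ℝ → ℂ) (ξ : ℝ) : ℂ := ∫ s, ex (2 * Real.pi * s * ξ) * k s

omit hA hB in
lemma int_ex {k : ℝ → ℂ} (hk : Kern k) (ξ : ℝ) :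
    Integrable (fun s => ex (2 * Real.pi * s * ξ) * k s) := by
  apply hk.int.bdd_mul (c := 1)
  · apply Continuous.aestronglyMeasurable
    apply continuous_ex.comp; fun_prop
  · filter_upwards with s
    exact (norm_ex _).le

lemma TM_ph {k : ℝ → ℂ} (hk : Kern k) (h : ℂ → ℝ) (Z : 𝓐) :
    Integrable (fun s : ℝ => k s • TM A B hfA.toFinset hfB.toFinset
        (fun b a => ex ((2 * Real.pi * s) * (h b - h a))) Z) ∧
    TM A B hfA.toFinset hfB.toFinset (fun b a => ph k (h b - h a)) Z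
      = ∫ s : ℝ, k s • TM A B hfA.toFinset hfB.toFinset
        (fun b a => ex ((2 * Real.pi * s) * (h b - h a))) Z := by
  have e : ∀ s : ℝ, k s • TM A B hfA.toFinset hfB.toFinset
        (fun b a => ex ((2 * Real.pi * s) * (h b - h a))) Z
      = ∑ b ∈ hfB.toFinset, ∑ a ∈ hfA.toFinset,
        (ex (2 * Real.pi * s * (h b - h a)) * k s) • (ep B b * Z * ep A a) := by
    intro s
    unfold TM
    simp only [Finset.smul_sum, smul_smul]
    apply Finset.sum_congr rfl
    intro b _
    apply Finset.sum_congr rfl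
    intro a _
    rw [mul_comm]
  simp only [e]
  have hi : ∀ b a : ℂ, Integrable (fun s : ℝ => (ex (2 * Real.pi * s * (h b - h a)) * k s) •
      (ep B b * Z * ep A a)) := fun b a => (int_ex hk (h b - h a)).smul_const _
  constructor
  · apply integrable_finsetSum
    intro b _
    apply integrable_finsetSum
    intro a _
    exact hi b a
  · rw [integral_finsetSum]
    · unfold TM
      apply Finset.sum_congr rfl
      intro b _
      rw [integral_finsetSum]
      · apply Finset.sum_congr rfl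
        intro a _
        rw [integral_smul_const]; rfl
      · intro a _; exact hi b a
    · intro b _
      apply integrable_finsetSum
      intro a _
      exact hi b a

lemma norm_TM_ph {k : ℝ → ℂ} (hk : Kern k) (h : ℂ → ℝ) (Z : 𝓐) :
    ‖TM A B hfA.toFinset hfB.toFinset (fun b a => ph k (h b - h a)) Z‖
      ≤ (∫ s, ‖k s‖) * ‖Z‖ := by
  obtain ⟨hi, he⟩ := TM_ph hA hB hfA hfB hk h Z
  rw [he, ← integral_mul_const]
  refine (norm_integral_le_integral_norm _).trans ?_
  apply integral_mono hi.norm (hk.int.norm.mul_const _)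
  intro s
  simp only [norm_smul]
  exact mul_le_mul_of_nonneg_left (norm_TM_ex hA hB hfA hfB h _ Z) (norm_nonneg _)

lemma norm_TM_ph_sub {k : ℝ → ℂ} (hk : Kern k) (h : ℂ → ℝ) (Z : 𝓐) :
    ‖TM A B hfA.toFinset hfB.toFinset (fun b a => ph k (h b - h a)) Z - Z‖
      ≤ (2 * Real.pi * ∫ s, |s| * ‖k s‖) *
        ‖TM A B hfA.toFinset hfB.toFinset (fun b a => ((h b - h a : ℝ) : ℂ)) Z‖ := by
  obtain ⟨hi, he⟩ := TM_ph hA hB hfA hfB hk h Z
  set W := TM A B hfA.toFinset hfB.toFinset (fun b a => ((h b - h a : ℝ) : ℂ)) Z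
  have h1 : Z = ∫ s, k s • Z := by rw [integral_smul_const, hk.one, one_smul]
  have hiZ : Integrable (fun s => k s • Z) := hk.int.smul_const _
  rw [he]
  conv_lhs => rw [show ∀ x : 𝓐, x - Z = x - ∫ s, k s • Z from fun x => by rw [← h1]]
  rw [← integral_sub hi hiZ]
  refine (norm_integral_le_integral_norm _).trans ?_
  have : (2 * Real.pi * ∫ s, |s| * ‖k s‖) * ‖W‖
      = ∫ s, (|s| * ‖k s‖) * (2 * Real.pi * ‖W‖) := by
    rw [integral_mul_const]; ring
  rw [this]
  apply integral_mono (hi.sub hiZ).norm (hk.int1.mul_const _)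
  intro s
  simp only [Pi.sub_apply]
  rw [← smul_sub, norm_smul]
  have h2 := norm_TM_mv hA hB hfA hfB h (2 * Real.pi * s) Z
  have h3 : |2 * Real.pi * s| = 2 * Real.pi * |s| := by
    rw [abs_mul, abs_of_pos (by positivity)]
  rw [h3] at h2
  calc ‖k s‖ * _ ≤ ‖k s‖ * (2 * Real.pi * |s| * ‖W‖) :=
        mul_le_mul_of_nonneg_left h2 (norm_nonneg _)
    _ = (|s| * ‖k s‖) * (2 * Real.pi * ‖W‖) := by ring

/-- the constant -/
noncomputable def MM (k : ℝ → ℂ) : ℝ :=
  4 * Real.pi * (∫ s, |s| * ‖k s‖) * (1 + ∫ s, ‖k s‖)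

variable {r : ℂ → ℂ} {J : Finset ℂ} (hJA : ∀ z ∈ spectrum ℂ A, r z ∈ J)
  (hJB : ∀ z ∈ spectrum ℂ B, r z ∈ J)

include hfA hfB hJA hJB

theorem norm_X_four {k : ℝ → ℂ} (hk : Kern k) {δ : ℝ} (hδ : 0 < δ) (hE : ‖B - A‖ ≤ 1)
    (hsep : ∀ a ∈ spectrum ℂ A, ∀ b ∈ spectrum ℂ B, r a ≠ r b → δ ≤ ‖b - a‖) :
    ‖1 - SS A B r J‖ ≤ MM k / δ := by
  have hI1 : ‖B * SS A B r J - SS A B r J * A‖ ≤ 1 :=
    SS_comm hA hB hfA hfB hJA hJB A B (fun j => Pj_comm A r j hA)
    (fun j => Pj_comm B r j hB) hE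
  have hE' : ‖star B - star A‖ ≤ 1 := by rw [← star_sub, norm_star]; exact hE
  have hI2 : ‖star B * SS A B r J - SS A B r J * star A‖ ≤ 1 :=
    SS_comm hA hB hfA hfB hJA hJB (star A) (star B) (fun j => Pj_comm' A r j hA)
    (fun j => Pj_comm' B r j hB) hE'
  set X := 1 - SS A B r J with hX
  have hx1 : ‖B * X - X * A‖ ≤ 2 := by
    have e : B * X - X * A = (B - A) - (B * SS A B r J - SS A B r J * A) := by
      rw [hX]; noncomm_ring
    rw [e]; have := sub_le_of hE hI1; linarith
  have hx2 : ‖star B * X - X * star A‖ ≤ 2 := by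
    have e : star B * X - X * star A
        = (star B - star A) - (star B * SS A B r J - SS A B r J * star A) := by
      rw [hX]; noncomm_ring
    rw [e]; have := sub_le_of hE' hI2; linarith
  set T := TM A B hfA.toFinset hfB.toFinset with hT
  -- the two commutators as multipliers
  have t1 : T (fun b a => b - a) X = B * X - X * A := by
    rw [hT, TM_sub (fun b _ => b) (fun _ a => a), TM_fst hA hB hfA hfB (fun z => z),
      TM_snd hA hB hfA hfB (fun z => z), cfc_id' ℂ A, cfc_id' ℂ B]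
  have hstA : cfc (fun z => (starRingEnd ℂ) z) A = star A := by
    have := cfc_star (fun z : ℂ => z) A
    rw [cfc_id' ℂ A] at this
    exact this
  have hstB : cfc (fun z => (starRingEnd ℂ) z) B = star B := by
    have := cfc_star (fun z : ℂ => z) B
    rw [cfc_id' ℂ B] at this
    exact this
  have t2 : T (fun b a => (starRingEnd ℂ) b - (starRingEnd ℂ) a) X
      = star B * X - X * star A := by
    rw [hT, TM_sub (fun b _ => (starRingEnd ℂ) b) (fun _ a => (starRingEnd ℂ) a),
      TM_fst hA hB hfA hfB (fun z => (starRingEnd ℂ) z),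
      TM_snd hA hB hfA hfB (fun z => (starRingEnd ℂ) z), hstA, hstB]
  have tre : T (fun b a => ((b.re / δ - a.re / δ : ℝ) : ℂ)) X
      = ((1 / (2 * δ) : ℝ) : ℂ) • ((B * X - X * A) + (star B * X - X * star A)) := by
    rw [← t1, ← t2, hT, ← TM_add, ← TM_smul]
    apply TM_congr
    intro b _ a _
    apply Complex.ext
    · simp; field_simp; ring
    · simp
  have tim : T (fun b a => ((b.im / δ - a.im / δ : ℝ) : ℂ)) X
      = (((1 / (2 * δ) : ℝ) : ℂ) * (-Complex.I)) •
        ((B * X - X * A) - (star B * X - X * star A)) := by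
    rw [← t1, ← t2, hT, ← TM_sub, ← TM_smul]
    apply TM_congr
    intro b _ a _
    apply Complex.ext
    · simp; field_simp; ring
    · simp
  have nre : ‖T (fun b a => ((b.re / δ - a.re / δ : ℝ) : ℂ)) X‖ ≤ 2 / δ := by
    rw [tre, norm_smul, Complex.norm_real, Real.norm_of_nonneg (by positivity)]
    have := add_le_of hx1 hx2
    calc 1 / (2 * δ) * _ ≤ 1 / (2 * δ) * (2 + 2) := mul_le_mul_of_nonneg_left this (by positivity)
      _ = 2 / δ := by field_simp; norm_num
  have nim : ‖T (fun b a => ((b.im / δ - a.im / δ : ℝ) : ℂ)) X‖ ≤ 2 / δ := by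
    rw [tim, norm_smul, norm_mul, norm_neg, Complex.norm_I, mul_one, Complex.norm_real,
      Real.norm_of_nonneg (by positivity)]
    have := sub_le_of hx1 hx2
    calc 1 / (2 * δ) * _ ≤ 1 / (2 * δ) * (2 + 2) := mul_le_mul_of_nonneg_left this (by positivity)
      _ = 2 / δ := by field_simp; norm_num
  set M1 := ∫ s, |s| * ‖k s‖ with hM1
  set M0 := ∫ s, ‖k s‖ with hM0
  have hM1' : 0 ≤ M1 := integral_nonneg (fun s => by positivity)
  have hM0' : 0 ≤ M0 := integral_nonneg (fun s => norm_nonneg _)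
  set X1 := T (fun b a => ph k (b.re / δ - a.re / δ)) X with hX1
  set X2 := T (fun b a => ph k (b.im / δ - a.im / δ)) X1 with hX2
  have g1 : ‖X1 - X‖ ≤ 2 * Real.pi * M1 * (2 / δ) := by
    refine (norm_TM_ph_sub hA hB hfA hfB hk (fun z => z.re / δ) X).trans ?_
    exact mul_le_mul_of_nonneg_left nre (by positivity)
  have g2 : ‖X2 - X1‖ ≤ 2 * Real.pi * M1 * (M0 * (2 / δ)) := by
    refine (norm_TM_ph_sub hA hB hfA hfB hk (fun z => z.im / δ) X1).trans ?_
    apply mul_le_mul_of_nonneg_left _ (by positivity)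
    have e : TM A B hfA.toFinset hfB.toFinset (fun b a => ((b.im / δ - a.im / δ : ℝ) : ℂ)) X1
        = TM A B hfA.toFinset hfB.toFinset (fun b a => ph k (b.re / δ - a.re / δ))
          (T (fun b a => ((b.im / δ - a.im / δ : ℝ) : ℂ)) X) := by
      rw [hX1, hT, TM_TM (ep_dec hA hfA) (ep_dec hB hfB),
        TM_TM (ep_dec hA hfA) (ep_dec hB hfB)]
      apply TM_congr
      intro b _ a _
      ring
    rw [e]
    refine (norm_TM_ph hA hB hfA hfB hk (fun z => z.re / δ) _).trans ?_
    exact mul_le_mul_of_nonneg_left nim hM0'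
  have g3 : X2 = 0 := by
    rw [hX2, hX1, hT, TM_TM (ep_dec hA hfA) (ep_dec hB hfB)]
    unfold TM
    apply Finset.sum_eq_zero
    intro b hb
    apply Finset.sum_eq_zero
    intro a ha
    have hb' : b ∈ spectrum ℂ B := by simpa using hb
    have ha' : a ∈ spectrum ℂ A := by simpa using ha
    by_cases hr : r a = r b
    · have : ep B b * X * ep A a = 0 := by
        have e1 : ep B b * SS A B r J * ep A a = ep B b * ep A a := by
          rw [ep_SS hA hB hfA hfB hJA hJB hb', mul_assoc]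
          have : Pj A r (r b) * ep A a = ep A a := by
            have := cfc_mul_ep hfA a (fun z => if r z = r b then (1:ℂ) else 0)
            rw [if_pos hr, one_smul] at this
            exact this
          rw [this]
        rw [hX, mul_sub, sub_mul, e1, mul_one, sub_self]
      rw [this, smul_zero]
    · have h5 := hsep a ha' b hb' hr
      have h6 : ph k (b.im / δ - a.im / δ) * ph k (b.re / δ - a.re / δ) = 0 := by
        by_contra hne
        have hne1 := left_ne_zero_of_mul hne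
        have hne2 := right_ne_zero_of_mul hne
        have l1 : |b.im / δ - a.im / δ| < 1/2 := by
          by_contra hge
          exact hne1 (hk.van _ (not_lt.1 hge))
        have l2 : |b.re / δ - a.re / δ| < 1/2 := by
          by_contra hge
          exact hne2 (hk.van _ (not_lt.1 hge))
        have l3 : |b.im - a.im| < δ / 2 := by
          have : b.im / δ - a.im / δ = (b.im - a.im) / δ := by ring
          rw [this, abs_div, abs_of_pos hδ, div_lt_iff₀ hδ] at l1
          linarith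
        have l4 : |b.re - a.re| < δ / 2 := by
          have : b.re / δ - a.re / δ = (b.re - a.re) / δ := by ring
          rw [this, abs_div, abs_of_pos hδ, div_lt_iff₀ hδ] at l2
          linarith
        have l5 := Complex.norm_le_abs_re_add_abs_im (b - a)
        simp only [Complex.sub_re, Complex.sub_im] at l5
        linarith
      beta_reduce
      rw [h6, zero_smul]
  have g4 : ‖X‖ ≤ ‖X1 - X‖ + ‖X2 - X1‖ := by
    have : X = -((X1 - X) + (X2 - X1)) := by rw [g3]; abel
    calc ‖X‖ = ‖-((X1 - X) + (X2 - X1))‖ := by rw [← this]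
      _ ≤ _ := by rw [norm_neg]; exact norm_add_le _ _
  have g5 : MM k / δ = 2 * Real.pi * M1 * (2 / δ) + 2 * Real.pi * M1 * (M0 * (2 / δ)) := by
    unfold MM; rw [← hM1, ← hM0]; field_simp; ring
  rw [g5]
  linarith

end

end Pool.Agent.R922.WN
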