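import Pool.Agent.R922.WN.Path

/-!
# Joining normal elements by unit speed normal paths, and the assembly of the path
-/

open Set

namespace Pool.Agent.R922.WN

variable {𝓐 : Type*} [CStarAlgebra 𝓐]

/-- `A` and `B` are joined by a `1`-Lipschitz path of normal elements on `[0, T]`. -/
def Joined' (A B : 𝓐) (T : ℝ) : Prop :=
  0 ≤ T ∧ ∃ γ : ℝ → 𝓐, γ 0 = A ∧ γ T = B ∧
    (∀ s ∈ Icc 0 T, ∀ t ∈ Icc 0 T, ‖γ t - γ s‖ ≤ |t - s|) ∧ ∀ s ∈ Icc 0 T, IsStarNormal (γ s)

lemma Joined'.symm {A B : 𝓐} {T : ℝ} (h : Joined' A B T) : Joined' B A T := by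
  obtain ⟨h0, γ, h1, h2, h3, h4⟩ := h
  refine ⟨h0, fun t => γ (T - t), by simpa using h2, by simpa using h1, ?_, ?_⟩
  · intro s hs t ht
    have := h3 (T - s) ⟨by linarith [hs.2], by linarith [hs.1]⟩ (T - t)
      ⟨by linarith [ht.2], by linarith [ht.1]⟩
    calc _ ≤ |T - t - (T - s)| := this
      _ = |t - s| := by rw [show T - t - (T - s) = -(t - s) by ring, abs_neg]
  · intro s hs
    exact h4 _ ⟨by linarith [hs.2], by linarith [hs.1]⟩

lemma Joined'.trans {A B C : 𝓐} {T T' : ℝ} (h : Joined' A B T) (h' : Joined' B C T') :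
    Joined' A C (T + T') := by
  obtain ⟨h0, γ, h1, h2, h3, h4⟩ := h
  obtain ⟨h0', γ', h1', h2', h3', h4'⟩ := h'
  have key : ∀ s ∈ Icc 0 (T + T'), ∀ t ∈ Icc 0 (T + T'), s ≤ t →
      ‖(fun u => if u ≤ T then γ u else γ' (u - T)) t
        - (fun u => if u ≤ T then γ u else γ' (u - T)) s‖ ≤ t - s := by
    intro s hs t ht hst
    by_cases h5 : t ≤ T
    · have h6 : s ≤ T := hst.trans h5
      simp only [h5, h6, if_true]
      have := h3 s ⟨hs.1, h6⟩ t ⟨ht.1, h5⟩
      rwa [abs_of_nonneg (by linarith)] at this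
    · by_cases h6 : s ≤ T
      · simp only [h5, h6, if_true, if_false]
        have e1 := h3 s ⟨hs.1, h6⟩ T ⟨h0, le_refl _⟩
        have e2 := h3' 0 ⟨le_refl _, h0'⟩ (t - T) ⟨by linarith, by linarith [ht.2]⟩
        rw [abs_of_nonneg (by linarith)] at e1
        rw [abs_of_nonneg (by linarith)] at e2
        rw [h2] at e1
        rw [h1'] at e2
        have : γ' (t - T) - γ s = (γ' (t - T) - B) + (B - γ s) := by abel
        rw [this]
        refine (norm_add_le _ _).trans ?_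
        linarith
      · simp only [h5, h6, if_false]
        have := h3' (s - T) ⟨by linarith, by linarith [hs.2]⟩ (t - T)
          ⟨by linarith, by linarith [ht.2]⟩
        rw [abs_of_nonneg (by linarith)] at this
        linarith
  refine ⟨by linarith, fun u => if u ≤ T then γ u else γ' (u - T), ?_, ?_, ?_, ?_⟩
  · simp [h0, h1]
  · by_cases h5 : T + T' ≤ T
    · have : T' = 0 := by linarith
      subst this
      simp only [add_zero, le_refl, if_true]
      rw [h2, ← h1', h2']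
    · simp only [h5, if_false]
      rw [add_sub_cancel_left, h2']
  · intro s hs t ht
    rcases le_total s t with hst | hst
    · rw [abs_of_nonneg (by linarith)]; exact key s hs t ht hst
    · rw [norm_sub_rev, abs_of_nonpos (by linarith), neg_sub]; exact key t ht s hs hst
  · intro s hs
    by_cases h5 : s ≤ T
    · simp only [h5, if_true]; exact h4 s ⟨hs.1, h5⟩
    · simp only [h5, if_false]; exact h4' _ ⟨by linarith, by linarith [hs.2]⟩

lemma Joined'.of_lip {γ : ℝ → 𝓐} {K : ℝ} (hK : 0 ≤ K)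
    (h : ∀ s ∈ Icc (0:ℝ) 1, ∀ t ∈ Icc (0:ℝ) 1, ‖γ t - γ s‖ ≤ |t - s| * K)
    (hn : ∀ s ∈ Icc (0:ℝ) 1, IsStarNormal (γ s)) : Joined' (γ 0) (γ 1) K := by
  rcases hK.eq_or_lt with h0 | h0
  · subst h0
    have e := h 0 (by simp) 1 (by simp)
    rw [mul_zero, norm_le_zero_iff, sub_eq_zero] at e
    rw [e]
    refine ⟨le_refl _, fun _ => γ 0, rfl, rfl, ?_, ?_⟩
    · intro s _ t _; simp
    · intro s _; exact hn 0 (by simp)
  · refine ⟨hK, fun t => γ (t / K), by simp, by simp [div_self h0.ne'], ?_, ?_⟩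
    · intro s hs t ht
      have hm : ∀ u ∈ Icc 0 K, u / K ∈ Icc (0:ℝ) 1 := fun u hu =>
        ⟨div_nonneg hu.1 hK, (div_le_one h0).2 hu.2⟩
      refine (h _ (hm s hs) _ (hm t ht)).trans (le_of_eq ?_)
      rw [← sub_div, abs_div, abs_of_pos h0, div_mul_cancel₀ _ h0.ne']
    · intro s hs
      exact hn _ ⟨div_nonneg hs.1 hK, (div_le_one h0).2 hs.2⟩

/-- reparametrisation to `[0,1]` -/
lemma Joined'.lip {A B : 𝓐} {T : ℝ} (h : Joined' A B T) :
    ∃ γ : ℝ → 𝓐, γ 0 = A ∧ γ 1 = B ∧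
      (∀ s ∈ Icc (0:ℝ) 1, ∀ t ∈ Icc (0:ℝ) 1, ‖γ t - γ s‖ ≤ |t - s| * T) ∧
      ∀ s ∈ Icc (0:ℝ) 1, IsStarNormal (γ s) := by
  obtain ⟨h0, γ, h1, h2, h3, h4⟩ := h
  refine ⟨fun t => γ (t * T), by simpa using h1, by simpa using h2, ?_, ?_⟩
  · intro s hs t ht
    have hm : ∀ u ∈ Icc (0:ℝ) 1, u * T ∈ Icc (0:ℝ) T := fun u hu =>
      ⟨mul_nonneg hu.1 h0, by nlinarith [hu.2]⟩
    refine (h3 _ (hm s hs) _ (hm t ht)).trans (le_of_eq ?_)
    rw [← sub_mul, abs_mul, abs_of_nonneg h0]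
  · intro s hs
    exact h4 _ ⟨mul_nonneg hs.1 h0, by nlinarith [hs.2]⟩

/-! ### Spectral projections -/

/-- spectral projection on `{r = j}` -/
noncomputable def Pj (A : 𝓐) (r : ℂ → ℂ) (j : ℂ) : 𝓐 :=
  cfc (fun z => if r z = j then (1:ℂ) else 0) A

section proj
variable {A : 𝓐} (hA : IsStarNormal A) (hf : (spectrum ℂ A).Finite)

include hf in
lemma cont_fin (f : ℂ → ℂ) : ContinuousOn f (spectrum ℂ A) := hf.continuousOn f

lemma Pj_star (A : 𝓐) (r : ℂ → ℂ) (j : ℂ) : star (Pj A r j) = Pj A r j := by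
  unfold Pj
  rw [← cfc_star]
  congr 1
  funext z
  split_ifs <;> simp

include hf in
lemma Pj_mul_self (r : ℂ → ℂ) (j : ℂ) : Pj A r j * Pj A r j = Pj A r j := by
  unfold Pj
  rw [← cfc_mul _ _ _ (cont_fin hf _) (cont_fin hf _)]
  congr 1
  funext z
  split_ifs <;> simp

include hA hf in
lemma Pj_mul_ne (r : ℂ → ℂ) {j k : ℂ} (hjk : j ≠ k) : Pj A r j * Pj A r k = 0 := by
  unfold Pj
  rw [← cfc_mul _ _ _ (cont_fin hf _) (cont_fin hf _)]
  have : (fun z => (if r z = j then (1:ℂ) else 0) * (if r z = k then (1:ℂ) else 0)) = 0 := by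
    funext z
    by_cases h : r z = j
    · have : r z ≠ k := fun h' => hjk (h.symm.trans h')
      simp [h, hjk]
    · simp [h]
  rw [this, cfc_zero]

include hA hf in
lemma Pj_sum (r : ℂ → ℂ) {J : Finset ℂ} (hJ : ∀ z ∈ spectrum ℂ A, r z ∈ J) :
    ∑ j ∈ J, Pj A r j = 1 := by
  unfold Pj
  rw [← cfc_sum (fun j z => if r z = j then (1:ℂ) else 0) A J (fun i _ => cont_fin hf _)]
  rw [← cfc_const_one ℂ A]
  apply cfc_congr
  intro z hz
  simp only [Finset.sum_apply]
  rw [Finset.sum_ite_eq]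
  simp [hJ z hz]

include hA hf in
lemma cfc_eq_sum (r : ℂ → ℂ) {J : Finset ℂ} (hJ : ∀ z ∈ spectrum ℂ A, r z ∈ J) :
    cfc r A = ∑ j ∈ J, j • Pj A r j := by
  have e : ∀ j ∈ J, j • Pj A r j = cfc (fun z => j * (if r z = j then (1:ℂ) else 0)) A := by
    intro j _
    rw [cfc_const_mul _ _ _ (cont_fin hf _)]; rfl
  rw [Finset.sum_congr rfl e, ← cfc_sum (fun j z => j * (if r z = j then (1:ℂ) else 0)) A J
    (fun i _ => cont_fin hf _)]
  apply cfc_congr
  intro z hz
  simp only [Finset.sum_apply, mul_ite, mul_one, mul_zero]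
  rw [Finset.sum_ite_eq]
  simp [hJ z hz]

lemma Pj_comm (A : 𝓐) (r : ℂ → ℂ) (j : ℂ) (hA : IsStarNormal A) : Commute A (Pj A r j) := by
  have h : Commute A A := Commute.refl A
  have h2 : Commute (star A) A := hA.star_comm_self
  exact (h.cfc h2 _).symm

lemma Pj_comm' (A : 𝓐) (r : ℂ → ℂ) (j : ℂ) (hA : IsStarNormal A) :
    Commute (star A) (Pj A r j) := by
  have h : Commute A (star A) := hA.star_comm_self.symm
  exact (h.cfc (Commute.refl _) _).symm

end proj

/-! ### Pinching -/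

/-- A finite orthogonal decomposition of the unit. -/
structure Dec (J : Finset ℂ) (P : ℂ → 𝓐) : Prop where
  st : ∀ j, star (P j) = P j
  idem : ∀ j, P j * P j = P j
  orth : ∀ j k, j ≠ k → P j * P k = 0
  sum : ∑ j ∈ J, P j = 1

lemma pinch {J : Finset ℂ} {P Q : ℂ → 𝓐} (hP : Dec J P) (hQ : Dec J Q) (Z : 𝓐) :
    ‖∑ j ∈ J, Q j * Z * P j‖ ≤ ‖Z‖ := by
  rcases subsingleton_or_nontrivial 𝓐 with hs | hn
  · rw [Subsingleton.elim (∑ j ∈ J, Q j * Z * P j) Z]
  letI := CStarAlgebra.spectralOrder 𝓐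
  haveI := CStarAlgebra.spectralOrderedRing 𝓐
  set W := ∑ j ∈ J, Q j * Z * P j with hW
  have e1 : star W * W = ∑ j ∈ J, star (P j) * (star Z * Q j * Z) * P j := by
    rw [hW, star_sum, Finset.sum_mul_sum]
    apply Finset.sum_congr rfl
    intro j hj
    rw [Finset.sum_eq_single j]
    · simp only [star_mul, hQ.st, hP.st]
      calc P j * (star Z * Q j) * (Q j * Z * P j) = P j * star Z * (Q j * Q j) * Z * P j := by
            noncomm_ring
        _ = P j * (star Z * Q j * Z) * P j := by rw [hQ.idem]; noncomm_ring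
    · intro k _ hk
      simp only [star_mul, hQ.st, hP.st]
      calc P j * (star Z * Q j) * (Q k * Z * P k) = P j * star Z * (Q j * Q k) * Z * P k := by
            noncomm_ring
        _ = 0 := by rw [hQ.orth j k (Ne.symm hk)]; simp
    · intro h; exact absurd hj h
  have hQ1 : ∀ j, Q j ≤ 1 := by
    intro j
    rw [← sub_nonneg]
    have : 1 - Q j = star (1 - Q j) * (1 - Q j) := by
      rw [star_sub, star_one, hQ.st]
      have := hQ.idem j
      calc 1 - Q j = 1 - Q j - Q j + Q j := by abel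
        _ = 1 - Q j - Q j + Q j * Q j := by rw [this]
        _ = _ := by noncomm_ring
    rw [this]
    exact star_mul_self_nonneg _
  have e2 : ∀ j ∈ J, star (P j) * (star Z * Q j * Z) * P j
      ≤ star (P j) * (algebraMap ℝ 𝓐 (‖Z‖ ^ 2)) * P j := by
    intro j _
    apply star_left_conjugate_le_conjugate
    calc star Z * Q j * Z ≤ star Z * 1 * Z := star_left_conjugate_le_conjugate (hQ1 j) Z
      _ = star Z * Z := by rw [mul_one]
      _ ≤ algebraMap ℝ 𝓐 (‖Z‖ ^ 2) := CStarAlgebra.star_mul_le_algebraMap_norm_sq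
  have e3 : star W * W ≤ algebraMap ℝ 𝓐 (‖Z‖ ^ 2) := by
    rw [e1]
    refine (Finset.sum_le_sum e2).trans (le_of_eq ?_)
    calc ∑ j ∈ J, star (P j) * (algebraMap ℝ 𝓐 (‖Z‖ ^ 2)) * P j
        = ∑ j ∈ J, algebraMap ℝ 𝓐 (‖Z‖ ^ 2) * P j := by
          apply Finset.sum_congr rfl
          intro j _
          rw [hP.st, ← Algebra.commutes (‖Z‖ ^ 2) (P j), mul_assoc, hP.idem]
      _ = algebraMap ℝ 𝓐 (‖Z‖ ^ 2) := by rw [← Finset.mul_sum, hP.sum, mul_one]
  have e4 : ‖star W * W‖ ≤ ‖Z‖ ^ 2 := by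
    have := CStarAlgebra.norm_le_norm_of_nonneg_of_le (star_mul_self_nonneg W) e3
    rwa [norm_algebraMap', Real.norm_of_nonneg (by positivity)] at this
  rw [CStarRing.norm_star_mul_self] at e4
  nlinarith [norm_nonneg W, norm_nonneg Z]

end Pool.Agent.R922.WN
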