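import Pool.Agent.R922.WN.Four
import Pool.Agent.R922.WN.Clus

/-!
# Joining in C*-algebras
-/

open Set MeasureTheory

namespace Pool.Agent.R922.WN

variable {𝓐 : Type*} [CStarAlgebra 𝓐]

/-- Joining two normal elements with finite spectra, given a bound for `‖X‖`. -/
theorem joined_of {A B : 𝓐} (hA : IsStarNormal A) (hB : IsStarNormal B)
    (hfA : (spectrum ℂ A).Finite) (hfB : (spectrum ℂ B).Finite) (hE : ‖B - A‖ ≤ 1)
    {n : ℕ} (hnA : hfA.toFinset.card ≤ n) (hn : 1 ≤ n) {δ : ℝ} (hδ : 0 < δ)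
    (hX : ∀ (r : ℂ → ℂ) (J : Finset ℂ), (∀ z ∈ spectrum ℂ A, r z ∈ J) →
      (∀ z ∈ spectrum ℂ B, r z ∈ J) →
      (∀ a ∈ spectrum ℂ A, ∀ b ∈ spectrum ℂ B, r a ≠ r b → δ ≤ ‖b - a‖) →
      ‖1 - SS A B r J‖ ≤ 1/4) :
    Joined' A B (14 + 2 * ((n - 1 : ℝ) * (δ + 2))) := by
  obtain ⟨r, h1, h2, h3, h4, h5⟩ := exists_rep hfA hδ
    (t := spectrum ℂ B) (fun b hb => spec_close hA hfA hE hb)
  set D : ℝ := (n - 1 : ℝ) * (δ + 2) with hD
  have hD0 : 0 ≤ D := by
    have : (1:ℝ) ≤ n := by exact_mod_cast hn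
    apply mul_nonneg <;> linarith
  have hle : (hfA.toFinset.card - 1 : ℝ) * (δ + 2) ≤ D := by
    apply mul_le_mul_of_nonneg_right _ (by linarith)
    have : (hfA.toFinset.card : ℝ) ≤ n := by exact_mod_cast hnA
    linarith
  have hJA : ∀ z ∈ spectrum ℂ A, r z ∈ hfA.toFinset := fun z hz => by simpa using h1 z hz
  have hJB : ∀ z ∈ spectrum ℂ B, r z ∈ hfA.toFinset := fun z hz => by simpa using h2 z hz
  have := assemble hA hB hfA hfB hJA hJB hD0 (fun z hz => (h3 z hz).trans hle)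
    (fun z hz => (h4 z hz).trans (by linarith)) hE (hX r _ hJA hJB h5)
  have e : (14 : ℝ) + 2 * D = D + (D + 1) + 13 := by ring
  rw [e]; exact this

/-- explicit version -/
theorem joined_explicit {A B : 𝓐} (hA : IsStarNormal A) (hB : IsStarNormal B)
    (hfA : (spectrum ℂ A).Finite) (hfB : (spectrum ℂ B).Finite) (hE : ‖B - A‖ ≤ 1)
    {n : ℕ} (hnA : hfA.toFinset.card ≤ n) (hnB : hfB.toFinset.card ≤ n) (hn : 1 ≤ n) :
    Joined' A B (14 + 4 * (n - 1 : ℝ) * (2 * Real.sqrt n + 1)) := by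
  have hn' : (1:ℝ) ≤ n := by exact_mod_cast hn
  have hs : 0 < Real.sqrt n := Real.sqrt_pos.2 (by linarith)
  have := joined_of hA hB hfA hfB hE hnA hn (δ := 4 * Real.sqrt n) (by positivity)
    (fun r J hJA hJB hsep => by
      refine (norm_X_explicit hA hB hfA hfB hJA hJB (by positivity) hE hsep).trans ?_
      rw [div_le_iff₀ (by positivity)]
      have : Real.sqrt hfB.toFinset.card ≤ Real.sqrt n := by
        apply Real.sqrt_le_sqrt; exact_mod_cast hnB
      linarith)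
  have e : (14 : ℝ) + 4 * (n - 1 : ℝ) * (2 * Real.sqrt n + 1)
    = 14 + 2 * ((n - 1 : ℝ) * (4 * Real.sqrt n + 2)) := by ring
  rw [e]; exact this

/-- linear version -/
theorem joined_linear {k : ℝ → ℂ} (hk : Kern k) {A B : 𝓐} (hA : IsStarNormal A)
    (hB : IsStarNormal B)
    (hfA : (spectrum ℂ A).Finite) (hfB : (spectrum ℂ B).Finite) (hE : ‖B - A‖ ≤ 1)
    {n : ℕ} (hnA : hfA.toFinset.card ≤ n) (hn : 1 ≤ n) :
    Joined' A B (14 + 2 * ((n - 1 : ℝ) * ((4 * MM k + 1) + 2))) := by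
  have hM : 0 ≤ MM k := by
    unfold MM
    have h1 : 0 ≤ ∫ s, |s| * ‖k s‖ := integral_nonneg (fun s => by positivity)
    have h0 : 0 ≤ ∫ s, ‖k s‖ := integral_nonneg (fun s => norm_nonneg _)
    positivity
  apply joined_of hA hB hfA hfB hE hnA hn (by positivity)
  intro r J hJA hJB hsep
  refine (norm_X_four hA hB hfA hfB hJA hJB hk (by positivity) hE hsep).trans ?_
  rw [div_le_iff₀ (by positivity)]
  linarith

end Pool.Agent.R922.WN
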