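import Mathlib

/-!
# Polar path between nearly intertwined normal elements

In a C*-algebra: `A`, `B` normal, `‖B - A‖ ≤ 1`, `S` a contraction with `‖1 - S‖ ≤ 1/4`
which nearly intertwines `A` and `B`.  Then conjugating `B` with the unitary parts of
`1 - t (1 - S)` gives a Lipschitz path.
-/

namespace Pool.Agent.R922.WN

variable {𝓐 : Type*} [CStarAlgebra 𝓐]

/-- The Lyapunov estimate. -/
lemma lyap {C C' Z : 𝓐} {f : ℝ} (hC : ‖1 - C‖ ≤ 1/4) (hC' : ‖1 - C'‖ ≤ 1/4)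
    (h : ‖Z * C + C' * Z‖ ≤ f) : ‖Z‖ ≤ 2/3 * f := by
  have e : (2:ℝ) • Z = (Z * C + C' * Z) + Z * (1 - C) + (1 - C') * Z := by
    rw [two_smul]; noncomm_ring
  have h2 : ‖(2:ℝ) • Z‖ = 2 * ‖Z‖ := by rw [norm_smul]; norm_num
  have h3 : ‖(2:ℝ) • Z‖ ≤ f + ‖Z‖ * (1/4) + (1/4) * ‖Z‖ := by
    rw [e]
    refine (norm_add_le _ _).trans (add_le_add ((norm_add_le _ _).trans (add_le_add h ?_)) ?_)
    · exact (norm_mul_le _ _).trans (mul_le_mul_of_nonneg_left hC (norm_nonneg _))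
    · exact (norm_mul_le _ _).trans (mul_le_mul_of_nonneg_right hC' (norm_nonneg _))
  rw [h2] at h3
  linarith

/-- Dividing by `C`. -/
lemma divC {C Z : 𝓐} {f : ℝ} (hC : ‖1 - C‖ ≤ 1/4) (h : ‖Z * C‖ ≤ f) : ‖Z‖ ≤ 4/3 * f := by
  have e : Z = Z * C + Z * (1 - C) := by noncomm_ring
  have h3 : ‖Z‖ ≤ f + ‖Z‖ * (1/4) := by
    conv_lhs => rw [e]
    refine (norm_add_le _ _).trans (add_le_add h ?_)
    exact (norm_mul_le _ _).trans (mul_le_mul_of_nonneg_left hC (norm_nonneg _))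
  linarith

/-- The spectrum of `S* S`. -/
lemma spec_T {S : 𝓐} (hS : ‖1 - S‖ ≤ 1/4) (h1 : ‖S‖ ≤ 1) :
    ∀ x ∈ spectrum ℝ (star S * S), 9/16 ≤ x ∧ x ≤ 1 := by
  intro x hx
  rcases subsingleton_or_nontrivial 𝓐 with hs | hn
  · rw [spectrum.of_subsingleton] at hx; exact absurd hx (Set.notMem_empty _)
  have hx0 : 0 ≤ x := spectrum_star_mul_self_nonneg x hx
  have hT1 : ‖star S * S‖ ≤ 1 := by
    rw [CStarRing.norm_star_mul_self]
    calc ‖S‖ * ‖S‖ ≤ 1 * 1 := mul_le_mul h1 h1 (norm_nonneg _) zero_le_one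
      _ = 1 := one_mul 1
  have hx1 : x ≤ 1 := by
    have := spectrum.norm_le_norm_of_mem hx
    rw [Real.norm_of_nonneg hx0] at this
    exact this.trans hT1
  refine ⟨?_, hx1⟩
  have hlt : ‖1 - S‖ < 1 := lt_of_le_of_lt hS (by norm_num)
  set u : 𝓐ˣ := Units.oneSub (1 - S) hlt with hu
  have huS : (u : 𝓐) = S := by rw [hu, Units.val_oneSub]; abel
  have hinv : ‖((u⁻¹ : 𝓐ˣ) : 𝓐)‖ ≤ 4/3 := by
    have h := tsum_geometric_le_of_norm_lt_one (1 - S) hlt
    have h' : ((u⁻¹ : 𝓐ˣ) : 𝓐) = ∑' n : ℕ, (1 - S) ^ n := by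
      rw [hu]; rfl
    rw [h']
    refine h.trans ?_
    rw [norm_one]
    have : (1 - ‖1 - S‖)⁻¹ ≤ 4/3 := by
      rw [inv_le_comm₀ (by linarith) (by norm_num)]
      linarith
    linarith
  set v : 𝓐ˣ := star u * u with hv
  have hvT : (v : 𝓐) = star S * S := by
    rw [hv, Units.val_mul, Units.coe_star, huS]
  rw [← hvT] at hx
  have hne : x ≠ 0 := by
    rintro rfl
    exact spectrum.ne_zero_of_mem_of_unit hx rfl
  have hx' : x⁻¹ ∈ spectrum ℝ ((v⁻¹ : 𝓐ˣ) : 𝓐) := by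
    rw [← spectrum.map_inv, Set.mem_inv, inv_inv]
    exact hx
  have hn2 : ‖((v⁻¹ : 𝓐ˣ) : 𝓐)‖ ≤ 16/9 := by
    have e : ((v⁻¹ : 𝓐ˣ) : 𝓐) = ((u⁻¹ : 𝓐ˣ) : 𝓐) * star ((u⁻¹ : 𝓐ˣ) : 𝓐) := by
      rw [hv, mul_inv_rev, Units.val_mul, ← Units.coe_star_inv]
    rw [e, CStarRing.norm_self_mul_star]
    calc _ ≤ (4/3 : ℝ) * (4/3) := mul_le_mul hinv hinv (norm_nonneg _) (by norm_num)
      _ = 16/9 := by norm_num
  have h5 := (spectrum.norm_le_norm_of_mem hx').trans hn2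
  have hxpos : 0 < x := lt_of_le_of_ne hx0 (Ne.symm hne)
  rw [norm_inv, Real.norm_of_nonneg hx0, inv_le_comm₀ hxpos (by norm_num)] at h5
  linarith

/-- `C = (S* S)^{1/2}`. -/
noncomputable def Csq (S : 𝓐) : 𝓐 := cfc (fun x : ℝ => Real.sqrt x) (star S * S)

/-- `D = (S* S)^{-1/2}`. -/
noncomputable def Dsq (S : 𝓐) : 𝓐 := cfc (fun x : ℝ => (Real.sqrt x)⁻¹) (star S * S)

/-- The unitary part of `S`. -/
noncomputable def Uu (S : 𝓐) : 𝓐 := S * Dsq S

lemma selfAdj_T (S : 𝓐) : IsSelfAdjoint (star S * S) := IsSelfAdjoint.star_mul_self S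

lemma cont_inv {S : 𝓐} (hS : ‖1 - S‖ ≤ 1/4) (h1 : ‖S‖ ≤ 1) :
    ContinuousOn (fun x : ℝ => (Real.sqrt x)⁻¹) (spectrum ℝ (star S * S)) := by
  apply ContinuousOn.inv₀ Real.continuous_sqrt.continuousOn
  intro x hx
  have := (spec_T hS h1 x hx).1
  exact (Real.sqrt_pos.2 (by linarith)).ne'

lemma Csq_star (S : 𝓐) : star (Csq S) = Csq S :=
  (cfc_predicate (p := IsSelfAdjoint) (fun x : ℝ => Real.sqrt x) (star S * S)).star_eq

lemma Dsq_star (S : 𝓐) : star (Dsq S) = Dsq S :=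
  (cfc_predicate (p := IsSelfAdjoint) (fun x : ℝ => (Real.sqrt x)⁻¹) (star S * S)).star_eq

lemma Csq_sq {S : 𝓐} (hS : ‖1 - S‖ ≤ 1/4) (h1 : ‖S‖ ≤ 1) : Csq S * Csq S = star S * S := by
  have hc : ContinuousOn (fun x : ℝ => Real.sqrt x) (spectrum ℝ (star S * S)) :=
    Real.continuous_sqrt.continuousOn
  rw [Csq, ← cfc_mul _ _ _ hc hc]
  have : cfc (fun x : ℝ => Real.sqrt x * Real.sqrt x) (star S * S)
      = cfc (fun x : ℝ => x) (star S * S) := by
    apply cfc_congr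
    intro x hx
    exact Real.mul_self_sqrt (by have := (spec_T hS h1 x hx).1; linarith)
  rw [this, cfc_id' ℝ (star S * S) (selfAdj_T S)]

lemma Csq_Dsq {S : 𝓐} (hS : ‖1 - S‖ ≤ 1/4) (h1 : ‖S‖ ≤ 1) : Csq S * Dsq S = 1 := by
  have hc : ContinuousOn (fun x : ℝ => Real.sqrt x) (spectrum ℝ (star S * S)) :=
    Real.continuous_sqrt.continuousOn
  rw [Csq, Dsq, ← cfc_mul _ _ _ hc (cont_inv hS h1)]
  have : cfc (fun x : ℝ => Real.sqrt x * (Real.sqrt x)⁻¹) (star S * S)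
      = cfc (fun _ : ℝ => (1:ℝ)) (star S * S) := by
    apply cfc_congr
    intro x hx
    exact mul_inv_cancel₀ (Real.sqrt_pos.2 (by have := (spec_T hS h1 x hx).1; linarith)).ne'
  rw [this, cfc_const_one ℝ (star S * S) (selfAdj_T S)]

lemma Dsq_Csq {S : 𝓐} (hS : ‖1 - S‖ ≤ 1/4) (h1 : ‖S‖ ≤ 1) : Dsq S * Csq S = 1 := by
  rw [← Csq_Dsq hS h1]
  exact (cfc_commute_cfc _ _ _)

lemma norm_one_sub_Csq {S : 𝓐} (hS : ‖1 - S‖ ≤ 1/4) (h1 : ‖S‖ ≤ 1) : ‖1 - Csq S‖ ≤ 1/4 := by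
  have hc : ContinuousOn (fun x : ℝ => Real.sqrt x) (spectrum ℝ (star S * S)) :=
    Real.continuous_sqrt.continuousOn
  have e : 1 - Csq S = cfc (fun x : ℝ => 1 - Real.sqrt x) (star S * S) := by
    rw [cfc_sub (fun _ : ℝ => (1:ℝ)) (fun x : ℝ => Real.sqrt x) (star S * S)
      continuousOn_const hc, cfc_const_one ℝ (star S * S) (selfAdj_T S), Csq]
  rw [e]
  apply norm_cfc_le (by norm_num)
  intro x hx
  obtain ⟨h9, h10⟩ := spec_T hS h1 x hx
  have hs1 : Real.sqrt x ≤ 1 := by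
    rw [Real.sqrt_le_one]; exact h10
  have hs2 : 3/4 ≤ Real.sqrt x := by
    apply Real.le_sqrt_of_sq_le
    norm_num; linarith
  rw [Real.norm_of_nonneg (by linarith)]
  linarith

lemma Csq_comm {S P : 𝓐} (h : Commute (star S * S) P) : Commute (Csq S) P :=
  h.cfc_real _

lemma Dsq_comm {S P : 𝓐} (h : Commute (star S * S) P) : Commute (Dsq S) P :=
  h.cfc_real _

lemma Uu_Csq {S : 𝓐} (hS : ‖1 - S‖ ≤ 1/4) (h1 : ‖S‖ ≤ 1) : Uu S * Csq S = S := by
  rw [Uu, mul_assoc, Dsq_Csq hS h1, mul_one]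

lemma Uu_star_mul {S : 𝓐} (hS : ‖1 - S‖ ≤ 1/4) (h1 : ‖S‖ ≤ 1) : star (Uu S) * Uu S = 1 := by
  rw [Uu, star_mul, Dsq_star]
  calc Dsq S * star S * (S * Dsq S) = Dsq S * (star S * S) * Dsq S := by noncomm_ring
    _ = Dsq S * (Csq S * Csq S) * Dsq S := by rw [Csq_sq hS h1]
    _ = (Dsq S * Csq S) * (Csq S * Dsq S) := by noncomm_ring
    _ = 1 := by rw [Dsq_Csq hS h1, Csq_Dsq hS h1, one_mul]

lemma Uu_mul_star {S : 𝓐} (hS : ‖1 - S‖ ≤ 1/4) (h1 : ‖S‖ ≤ 1) : Uu S * star (Uu S) = 1 := by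
  have hlt : ‖1 - S‖ < 1 := lt_of_le_of_lt hS (by norm_num)
  have hSu : IsUnit S := by
    have : IsUnit ((Units.oneSub (1 - S) hlt : 𝓐ˣ) : 𝓐) := Units.isUnit _
    rw [Units.val_oneSub] at this
    simpa using this
  have hDu : IsUnit (Dsq S) := ⟨⟨Dsq S, Csq S, Dsq_Csq hS h1, Csq_Dsq hS h1⟩, rfl⟩
  have hU : IsUnit (Uu S) := hSu.mul hDu
  obtain ⟨u, hu⟩ := hU
  have h := Uu_star_mul hS h1
  rw [← hu] at h ⊢
  have : star (u : 𝓐) = ((u⁻¹ : 𝓐ˣ) : 𝓐) := by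
    calc star (u : 𝓐) = star (u : 𝓐) * (u * ((u⁻¹ : 𝓐ˣ) : 𝓐)) := by simp
      _ = (star (u : 𝓐) * u) * ((u⁻¹ : 𝓐ˣ) : 𝓐) := by rw [mul_assoc]
      _ = ((u⁻¹ : 𝓐ˣ) : 𝓐) := by rw [h, one_mul]
  rw [this]; simp

lemma norm_le_one_of_star_mul {U : 𝓐} (h : star U * U = 1) : ‖U‖ ≤ 1 := by
  rcases subsingleton_or_nontrivial 𝓐 with hs | hn
  · have : U = 0 := Subsingleton.elim _ _
    rw [this, norm_zero]; norm_num
  have h2 : ‖U‖ * ‖U‖ = 1 := by rw [← CStarRing.norm_star_mul_self, h, norm_one]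
  nlinarith [norm_nonneg U]

lemma norm_Uu {S : 𝓐} (hS : ‖1 - S‖ ≤ 1/4) (h1 : ‖S‖ ≤ 1) : ‖Uu S‖ ≤ 1 :=
  norm_le_one_of_star_mul (Uu_star_mul hS h1)

lemma mul_le_of {a b : 𝓐} {x y : ℝ} (hx : ‖a‖ ≤ x) (hy : ‖b‖ ≤ y) : ‖a * b‖ ≤ x * y :=
  (norm_mul_le _ _).trans (mul_le_mul hx hy (norm_nonneg _) ((norm_nonneg _).trans hx))

lemma add_le_of {a b : 𝓐} {x y : ℝ} (hx : ‖a‖ ≤ x) (hy : ‖b‖ ≤ y) : ‖a + b‖ ≤ x + y :=
  (norm_add_le _ _).trans (add_le_add hx hy)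

lemma sub_le_of {a b : 𝓐} {x y : ℝ} (hx : ‖a‖ ≤ x) (hy : ‖b‖ ≤ y) : ‖a - b‖ ≤ x + y :=
  (norm_sub_le _ _).trans (add_le_add hx hy)

/-- The data of Step 2. -/
structure Inter (A B S : 𝓐) : Prop where
  S1 : ‖1 - S‖ ≤ 1/4
  Sn : ‖S‖ ≤ 1
  E : ‖B - A‖ ≤ 1
  F : ‖B * S - S * A‖ ≤ 1
  F' : ‖star B * S - S * star A‖ ≤ 1

/-- The path of contractions. -/
noncomputable def St (S : 𝓐) (t : ℝ) : 𝓐 := 1 - t • (1 - S)

lemma St_eq (S : 𝓐) (t : ℝ) : St S t = (1 - t) • (1 : 𝓐) + t • S := by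
  unfold St; rw [smul_sub, sub_smul, one_smul]; abel

lemma St_zero (S : 𝓐) : St S 0 = 1 := by simp [St]
lemma St_one (S : 𝓐) : St S 1 = S := by simp [St]

lemma norm_one_sub_St {S : 𝓐} (hS : ‖1 - S‖ ≤ 1/4) {t : ℝ} (h0 : 0 ≤ t) (h1 : t ≤ 1) :
    ‖1 - St S t‖ ≤ 1/4 := by
  have : 1 - St S t = t • (1 - S) := by unfold St; abel
  rw [this, norm_smul, Real.norm_of_nonneg h0]
  nlinarith [norm_nonneg (1 - S)]

lemma norm_conv {X Y : 𝓐} {c t : ℝ} (hX : ‖X‖ ≤ c) (hY : ‖Y‖ ≤ c) (h0 : 0 ≤ t) (h1 : t ≤ 1) :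
    ‖(1 - t) • X + t • Y‖ ≤ c := by
  calc ‖(1 - t) • X + t • Y‖ ≤ (1 - t) * c + t * c := by
        refine add_le_of ?_ ?_
        · rw [norm_smul, Real.norm_of_nonneg (by linarith)]
          exact mul_le_mul_of_nonneg_left hX (by linarith)
        · rw [norm_smul, Real.norm_of_nonneg h0]
          exact mul_le_mul_of_nonneg_left hY h0
    _ = c := by ring

lemma norm_one_le : ‖(1 : 𝓐)‖ ≤ 1 := by
  apply norm_le_one_of_star_mul; simp

lemma norm_St {S : 𝓐} (hS : ‖S‖ ≤ 1) {t : ℝ} (h0 : 0 ≤ t) (h1 : t ≤ 1) :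
    ‖St S t‖ ≤ 1 := by
  rw [St_eq]
  exact norm_conv norm_one_le hS h0 h1

section est
variable {A B S : 𝓐}

lemma F_eq (A B S : 𝓐) (t : ℝ) :
    B * St S t - St S t * A = (1 - t) • (B - A) + t • (B * S - S * A) := by
  rw [St_eq]
  simp only [mul_add, add_mul, mul_smul_comm, smul_mul_assoc, mul_one, one_mul, smul_sub]
  abel

lemma norm_F (h : Inter A B S) {t : ℝ} (h0 : 0 ≤ t) (h1 : t ≤ 1) :
    ‖B * St S t - St S t * A‖ ≤ 1 := by
  rw [F_eq]; exact norm_conv h.E h.F h0 h1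

lemma norm_F' (h : Inter A B S) {t : ℝ} (h0 : 0 ≤ t) (h1 : t ≤ 1) :
    ‖star B * St S t - St S t * star A‖ ≤ 1 := by
  rw [F_eq]; refine norm_conv ?_ h.F' h0 h1
  rw [← star_sub, norm_star]; exact h.E

lemma norm_F'star (h : Inter A B S) {t : ℝ} (h0 : 0 ≤ t) (h1 : t ≤ 1) :
    ‖A * star (St S t) - star (St S t) * B‖ ≤ 1 := by
  have : A * star (St S t) - star (St S t) * B
      = - star (star B * St S t - St S t * star A) := by
    simp only [star_sub, star_mul, star_star]; abel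
  rw [this, norm_neg, norm_star]
  exact norm_F' h h0 h1

/-- the commutator with `C_t` -/
noncomputable def Kt (A S : 𝓐) (t : ℝ) : 𝓐 := A * Csq (St S t) - Csq (St S t) * A

lemma Kt_lyap (h : Inter A B S) {t : ℝ} (h0 : 0 ≤ t) (h1 : t ≤ 1) :
    Kt A S t * Csq (St S t) + Csq (St S t) * Kt A S t
      = A * (star (St S t) * St S t) - (star (St S t) * St S t) * A := by
  rw [← Csq_sq (norm_one_sub_St h.S1 h0 h1) (norm_St h.Sn h0 h1)]
  unfold Kt; noncomm_ring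

lemma norm_Kt (h : Inter A B S) {t : ℝ} (h0 : 0 ≤ t) (h1 : t ≤ 1) :
    ‖Kt A S t‖ ≤ 4/3 := by
  have hc := norm_one_sub_Csq (norm_one_sub_St h.S1 h0 h1) (norm_St h.Sn h0 h1)
  have := lyap (Z := Kt A S t) (f := 2) hc hc (by
    rw [Kt_lyap h h0 h1]
    have e : A * (star (St S t) * St S t) - (star (St S t) * St S t) * A
      = (A * star (St S t) - star (St S t) * B) * St S t
        + star (St S t) * (B * St S t - St S t * A) := by noncomm_ring
    rw [e]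
    have := add_le_of (mul_le_of (norm_F'star h h0 h1) (norm_St h.Sn h0 h1))
      (mul_le_of (by rw [norm_star]; exact norm_St h.Sn h0 h1 : ‖star (St S t)‖ ≤ 1)
        (norm_F h h0 h1))
    linarith)
  linarith

lemma St_sub (S : 𝓐) (s t : ℝ) : St S t - St S s = (s - t) • (1 - S) := by
  unfold St; rw [sub_smul]; abel

lemma norm_St_sub (h : Inter A B S) (s t : ℝ) : ‖St S t - St S s‖ ≤ |t - s| * (1/4) := by
  rw [St_sub, norm_smul, Real.norm_eq_abs, abs_sub_comm]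
  exact mul_le_mul_of_nonneg_left h.S1 (abs_nonneg _)

lemma norm_T_sub (h : Inter A B S) {s t : ℝ} (hs0 : 0 ≤ s) (hs1 : s ≤ 1) (h0 : 0 ≤ t)
    (h1 : t ≤ 1) :
    ‖star (St S t) * St S t - star (St S s) * St S s‖ ≤ |t - s| * (1/2) := by
  have e : star (St S t) * St S t - star (St S s) * St S s
    = star (St S t) * (St S t - St S s) + star (St S t - St S s) * St S s := by
    rw [star_sub]; noncomm_ring
  rw [e]
  have := add_le_of (mul_le_of (by rw [norm_star]; exact norm_St h.Sn h0 h1 :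
      ‖star (St S t)‖ ≤ 1) (norm_St_sub h s t))
    (mul_le_of (by rw [norm_star]; exact norm_St_sub h s t :
      ‖star (St S t - St S s)‖ ≤ |t - s| * (1/4)) (norm_St h.Sn hs0 hs1))
  linarith

lemma norm_C_sub (h : Inter A B S) {s t : ℝ} (hs0 : 0 ≤ s) (hs1 : s ≤ 1) (h0 : 0 ≤ t)
    (h1 : t ≤ 1) :
    ‖Csq (St S t) - Csq (St S s)‖ ≤ |t - s| * (1/3) := by
  have hc := norm_one_sub_Csq (norm_one_sub_St h.S1 h0 h1) (norm_St h.Sn h0 h1)
  have hc' := norm_one_sub_Csq (norm_one_sub_St h.S1 hs0 hs1) (norm_St h.Sn hs0 hs1)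
  have := lyap (Z := Csq (St S t) - Csq (St S s)) (f := |t - s| * (1/2)) hc hc' (by
    have e : (Csq (St S t) - Csq (St S s)) * Csq (St S t)
        + Csq (St S s) * (Csq (St S t) - Csq (St S s))
      = Csq (St S t) * Csq (St S t) - Csq (St S s) * Csq (St S s) := by noncomm_ring
    rw [e, Csq_sq (norm_one_sub_St h.S1 h0 h1) (norm_St h.Sn h0 h1),
      Csq_sq (norm_one_sub_St h.S1 hs0 hs1) (norm_St h.Sn hs0 hs1)]
    exact norm_T_sub h hs0 hs1 h0 h1)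
  linarith

lemma norm_U_sub (h : Inter A B S) {s t : ℝ} (hs0 : 0 ≤ s) (hs1 : s ≤ 1) (h0 : 0 ≤ t)
    (h1 : t ≤ 1) :
    ‖Uu (St S t) - Uu (St S s)‖ ≤ |t - s| * (7/9) := by
  have hc := norm_one_sub_Csq (norm_one_sub_St h.S1 h0 h1) (norm_St h.Sn h0 h1)
  have := divC (Z := Uu (St S t) - Uu (St S s)) (f := |t - s| * (7/12)) hc (by
    have e : (Uu (St S t) - Uu (St S s)) * Csq (St S t)
        = (Uu (St S t) * Csq (St S t) - Uu (St S s) * Csq (St S s))
          - Uu (St S s) * (Csq (St S t) - Csq (St S s)) := by noncomm_ring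
    rw [e, Uu_Csq (norm_one_sub_St h.S1 h0 h1) (norm_St h.Sn h0 h1),
      Uu_Csq (norm_one_sub_St h.S1 hs0 hs1) (norm_St h.Sn hs0 hs1)]
    have := sub_le_of (norm_St_sub h s t) (mul_le_of
      (norm_Uu (norm_one_sub_St h.S1 hs0 hs1) (norm_St h.Sn hs0 hs1))
      (norm_C_sub h hs0 hs1 h0 h1))
    linarith)
  linarith

lemma norm_BX (h : Inter A B S) : ‖B * (1 - S) - (1 - S) * A‖ ≤ 2 := by
  have e : B * (1 - S) - (1 - S) * A = (B - A) - (B * S - S * A) := by noncomm_ring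
  rw [e]; have := sub_le_of h.E h.F; linarith

lemma norm_BX' (h : Inter A B S) : ‖A * star (1 - S) - star (1 - S) * B‖ ≤ 2 := by
  have e : A * star (1 - S) - star (1 - S) * B
      = - (B - A) + star (star B * S - S * star A) := by
    simp only [star_sub, star_mul, star_star, star_one]; noncomm_ring
  rw [e]
  have := add_le_of (a := - (B - A)) (b := star (star B * S - S * star A)) (x := 1) (y := 1)
    (by rw [norm_neg]; exact h.E) (by rw [norm_star]; exact h.F')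
  linarith

lemma T_sub_eq (S : 𝓐) (s t : ℝ) : star (St S t) * St S t - star (St S s) * St S s
    = (s - t) • (star (St S t) * (1 - S) + star (1 - S) * St S s) := by
  have e : star (St S t) * St S t - star (St S s) * St S s
    = star (St S t) * (St S t - St S s) + star (St S t - St S s) * St S s := by
    rw [star_sub]; noncomm_ring
  have hst : star (s - t) = s - t := star_trivial _
  rw [e, St_sub, star_smul, hst, mul_smul_comm, smul_mul_assoc, smul_add]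

lemma norm_comm_T_sub (h : Inter A B S) {s t : ℝ} (hs0 : 0 ≤ s) (hs1 : s ≤ 1) (h0 : 0 ≤ t)
    (h1 : t ≤ 1) :
    ‖A * (star (St S t) * St S t - star (St S s) * St S s)
      - (star (St S t) * St S t - star (St S s) * St S s) * A‖ ≤ |t - s| * (9/2) := by
  rw [T_sub_eq, mul_smul_comm, smul_mul_assoc, ← smul_sub, norm_smul, Real.norm_eq_abs,
    abs_sub_comm]
  apply mul_le_mul_of_nonneg_left _ (abs_nonneg _)
  have e : A * (star (St S t) * (1 - S) + star (1 - S) * St S s)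
      - (star (St S t) * (1 - S) + star (1 - S) * St S s) * A
    = ((A * star (St S t) - star (St S t) * B) * (1 - S)
        + star (St S t) * (B * (1 - S) - (1 - S) * A))
      + ((A * star (1 - S) - star (1 - S) * B) * St S s
        + star (1 - S) * (B * St S s - St S s * A)) := by noncomm_ring
  rw [e]
  have := add_le_of (add_le_of (mul_le_of (norm_F'star h h0 h1) h.S1)
      (mul_le_of (by rw [norm_star]; exact norm_St h.Sn h0 h1 : ‖star (St S t)‖ ≤ 1)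
        (norm_BX h)))
    (add_le_of (mul_le_of (norm_BX' h) (norm_St h.Sn hs0 hs1))
      (mul_le_of (by rw [norm_star]; exact h.S1 : ‖star (1 - S)‖ ≤ 1/4)
        (norm_F h hs0 hs1)))
  linarith

lemma norm_K_sub (h : Inter A B S) {s t : ℝ} (hs0 : 0 ≤ s) (hs1 : s ≤ 1) (h0 : 0 ≤ t)
    (h1 : t ≤ 1) :
    ‖Kt A S t - Kt A S s‖ ≤ |t - s| * (97/27) := by
  have hc := norm_one_sub_Csq (norm_one_sub_St h.S1 h0 h1) (norm_St h.Sn h0 h1)
  have hc' := norm_one_sub_Csq (norm_one_sub_St h.S1 hs0 hs1) (norm_St h.Sn hs0 hs1)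
  have := lyap (Z := Kt A S t - Kt A S s) (f := |t - s| * (97/18)) hc hc' (by
    have e : (Kt A S t - Kt A S s) * Csq (St S t) + Csq (St S s) * (Kt A S t - Kt A S s)
      = ((Kt A S t * Csq (St S t) + Csq (St S t) * Kt A S t)
          - (Kt A S s * Csq (St S s) + Csq (St S s) * Kt A S s))
        - (Csq (St S t) - Csq (St S s)) * Kt A S t
        - Kt A S s * (Csq (St S t) - Csq (St S s)) := by noncomm_ring
    have e2 : (A * (star (St S t) * St S t) - (star (St S t) * St S t) * A)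
        - (A * (star (St S s) * St S s) - (star (St S s) * St S s) * A)
      = A * (star (St S t) * St S t - star (St S s) * St S s)
      - (star (St S t) * St S t - star (St S s) * St S s) * A := by noncomm_ring
    rw [e, Kt_lyap h h0 h1, Kt_lyap h hs0 hs1, e2]
    have := sub_le_of (sub_le_of (norm_comm_T_sub h hs0 hs1 h0 h1)
      (mul_le_of (norm_C_sub h hs0 hs1 h0 h1) (norm_Kt h h0 h1)))
      (mul_le_of (norm_Kt h hs0 hs1) (norm_C_sub h hs0 hs1 h0 h1))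
    linarith)
  linarith

/-- `G_t = B U_t - U_t A`. -/
noncomputable def Gt (A B S : 𝓐) (t : ℝ) : 𝓐 := B * Uu (St S t) - Uu (St S t) * A

lemma Gt_C (h : Inter A B S) {t : ℝ} (h0 : 0 ≤ t) (h1 : t ≤ 1) :
    Gt A B S t * Csq (St S t)
      = (B * St S t - St S t * A) - Uu (St S t) * Kt A S t := by
  have hU := Uu_Csq (norm_one_sub_St h.S1 h0 h1) (norm_St h.Sn h0 h1)
  have e : Gt A B S t * Csq (St S t) = (B * (Uu (St S t) * Csq (St S t))
      - (Uu (St S t) * Csq (St S t)) * A) - Uu (St S t) * Kt A S t := by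
    unfold Gt Kt; noncomm_ring
  rw [e, hU]

lemma norm_Gt (h : Inter A B S) {t : ℝ} (h0 : 0 ≤ t) (h1 : t ≤ 1) : ‖Gt A B S t‖ ≤ 28/9 := by
  have hc := norm_one_sub_Csq (norm_one_sub_St h.S1 h0 h1) (norm_St h.Sn h0 h1)
  have := divC (Z := Gt A B S t) (f := 7/3) hc (by
    rw [Gt_C h h0 h1]
    have := sub_le_of (norm_F h h0 h1) (mul_le_of
      (norm_Uu (norm_one_sub_St h.S1 h0 h1) (norm_St h.Sn h0 h1)) (norm_Kt h h0 h1))
    linarith)
  linarith

lemma norm_F_sub (h : Inter A B S) (s t : ℝ) :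
    ‖(B * St S t - St S t * A) - (B * St S s - St S s * A)‖ ≤ |t - s| * 2 := by
  have e : (B * St S t - St S t * A) - (B * St S s - St S s * A)
    = (s - t) • (B * (1 - S) - (1 - S) * A) := by
    have e1 : (B * St S t - St S t * A) - (B * St S s - St S s * A)
      = B * (St S t - St S s) - (St S t - St S s) * A := by noncomm_ring
    rw [e1, St_sub, mul_smul_comm, smul_mul_assoc, smul_sub]
  rw [e, norm_smul, Real.norm_eq_abs, abs_sub_comm]
  exact mul_le_mul_of_nonneg_left (norm_BX h) (abs_nonneg _)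

lemma norm_G_sub (h : Inter A B S) {s t : ℝ} (hs0 : 0 ≤ s) (hs1 : s ≤ 1) (h0 : 0 ≤ t)
    (h1 : t ≤ 1) :
    ‖Gt A B S t - Gt A B S s‖ ≤ |t - s| * (92/9) := by
  have hc := norm_one_sub_Csq (norm_one_sub_St h.S1 h0 h1) (norm_St h.Sn h0 h1)
  have := divC (Z := Gt A B S t - Gt A B S s) (f := |t - s| * (23/3)) hc (by
    have e : (Gt A B S t - Gt A B S s) * Csq (St S t)
      = (Gt A B S t * Csq (St S t) - Gt A B S s * Csq (St S s))
        - Gt A B S s * (Csq (St S t) - Csq (St S s)) := by noncomm_ring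
    have e2 : ((B * St S t - St S t * A) - Uu (St S t) * Kt A S t)
        - ((B * St S s - St S s * A) - Uu (St S s) * Kt A S s)
      = ((B * St S t - St S t * A) - (B * St S s - St S s * A))
        - ((Uu (St S t) - Uu (St S s)) * Kt A S t + Uu (St S s) * (Kt A S t - Kt A S s)) := by
      noncomm_ring
    rw [e, Gt_C h h0 h1, Gt_C h hs0 hs1, e2]
    have := sub_le_of (sub_le_of (norm_F_sub h s t)
      (add_le_of (mul_le_of (norm_U_sub h hs0 hs1 h0 h1) (norm_Kt h h0 h1))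
        (mul_le_of (norm_Uu (norm_one_sub_St h.S1 hs0 hs1) (norm_St h.Sn hs0 hs1))
          (norm_K_sub h hs0 hs1 h0 h1))))
      (mul_le_of (norm_Gt h hs0 hs1) (norm_C_sub h hs0 hs1 h0 h1))
    linarith)
  linarith

/-- The path `B_t = U_t* B U_t`. -/
noncomputable def Bt (B S : 𝓐) (t : ℝ) : 𝓐 := star (Uu (St S t)) * B * Uu (St S t)

lemma Bt_eq (h : Inter A B S) {t : ℝ} (h0 : 0 ≤ t) (h1 : t ≤ 1) :
    Bt B S t = A + star (Uu (St S t)) * Gt A B S t := by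
  have hU := Uu_star_mul (norm_one_sub_St h.S1 h0 h1) (norm_St h.Sn h0 h1)
  have e : star (Uu (St S t)) * Gt A B S t = Bt B S t - (star (Uu (St S t)) * Uu (St S t)) * A := by
    unfold Gt Bt; noncomm_ring
  rw [e, hU, one_mul]; abel

lemma norm_Bt_sub (h : Inter A B S) {s t : ℝ} (hs0 : 0 ≤ s) (hs1 : s ≤ 1) (h0 : 0 ≤ t)
    (h1 : t ≤ 1) :
    ‖Bt B S t - Bt B S s‖ ≤ |t - s| * 13 := by
  rw [Bt_eq h h0 h1, Bt_eq h hs0 hs1]
  have e : (A + star (Uu (St S t)) * Gt A B S t) - (A + star (Uu (St S s)) * Gt A B S s)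
    = star (Uu (St S t) - Uu (St S s)) * Gt A B S t
      + star (Uu (St S s)) * (Gt A B S t - Gt A B S s) := by rw [star_sub]; noncomm_ring
  rw [e]
  have := add_le_of (mul_le_of (by rw [norm_star]; exact norm_U_sub h hs0 hs1 h0 h1 :
      ‖star (Uu (St S t) - Uu (St S s))‖ ≤ |t - s| * (7/9)) (norm_Gt h h0 h1))
    (mul_le_of (by rw [norm_star]; exact (norm_Uu (norm_one_sub_St h.S1 hs0 hs1)
      (norm_St h.Sn hs0 hs1)) : ‖star (Uu (St S s))‖ ≤ 1) (norm_G_sub h hs0 hs1 h0 h1))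
  nlinarith [abs_nonneg (t - s)]

lemma Bt_normal (h : Inter A B S) (hB : IsStarNormal B) {t : ℝ} (h0 : 0 ≤ t) (h1 : t ≤ 1) :
    IsStarNormal (Bt B S t) := by
  have hU := Uu_mul_star (norm_one_sub_St h.S1 h0 h1) (norm_St h.Sn h0 h1)
  have hb := hB.star_comm_self
  constructor
  show star (Bt B S t) * Bt B S t = Bt B S t * star (Bt B S t)
  have e : star (Bt B S t) = star (Uu (St S t)) * star B * Uu (St S t) := by
    unfold Bt; simp only [star_mul, star_star]; noncomm_ring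
  rw [e]; unfold Bt
  calc star (Uu (St S t)) * star B * Uu (St S t) * (star (Uu (St S t)) * B * Uu (St S t))
      = star (Uu (St S t)) * star B * (Uu (St S t) * star (Uu (St S t))) * B * Uu (St S t) := by
        noncomm_ring
    _ = star (Uu (St S t)) * (star B * B) * Uu (St S t) := by rw [hU]; noncomm_ring
    _ = star (Uu (St S t)) * (B * star B) * Uu (St S t) := by rw [hb.eq]
    _ = star (Uu (St S t)) * B * (Uu (St S t) * star (Uu (St S t))) * star B * Uu (St S t) := by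
        rw [hU]; noncomm_ring
    _ = star (Uu (St S t)) * B * Uu (St S t) * (star (Uu (St S t)) * star B * Uu (St S t)) := by
        noncomm_ring

lemma Uu_one : Uu (1 : 𝓐) = 1 := by
  have h1 : ‖(1:𝓐) - 1‖ ≤ 1/4 := by simp
  have hT : Commute (star (1:𝓐) * 1) (1:𝓐) := Commute.one_right _
  have hd : Dsq (1:𝓐) = 1 := by
    unfold Dsq
    rw [star_one, one_mul]
    rw [show (1:𝓐) = algebraMap ℝ 𝓐 1 by simp, cfc_algebraMap]
    simp
  rw [Uu, hd, one_mul]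

lemma Bt_zero (B S : 𝓐) : Bt B S 0 = B := by
  unfold Bt; rw [St_zero, Uu_one]; simp

end est

end Pool.Agent.R922.WN
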