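import Pool.Agent.R922.WN.Asm

/-!
# The explicit bound `‖X‖ ≤ √N / δ`
-/

open Set

namespace Pool.Agent.R922.WN

variable {𝓐 : Type*} [CStarAlgebra 𝓐]

/-- eigenprojection -/
noncomputable def ep (A : 𝓐) (b : ℂ) : 𝓐 := Pj A id b

section
variable {A B : 𝓐} (hA : IsStarNormal A) (hB : IsStarNormal B)
  (hfA : (spectrum ℂ A).Finite) (hfB : (spectrum ℂ B).Finite)

lemma ep_mul_cfc (hfA : (spectrum ℂ A).Finite) (b : ℂ) (f : ℂ → ℂ) :
    ep A b * cfc f A = f b • ep A b := by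
  have hc := cont_fin (A := A) hfA
  unfold ep Pj
  rw [← cfc_mul _ _ _ (hc _) (hc _), ← cfc_smul _ _ _ (hc _)]
  congr 1
  funext z
  by_cases h : id z = b
  · simp only [id_eq] at h
    simp [h]
  · simp only [id_eq] at h
    simp [h]

lemma cfc_mul_ep (hfA : (spectrum ℂ A).Finite) (b : ℂ) (f : ℂ → ℂ) :
    cfc f A * ep A b = f b • ep A b := by
  have : Commute (cfc f A) (ep A b) := cfc_commute_cfc _ _ _
  rw [this.eq, ep_mul_cfc hfA]

lemma ep_mul_self' (hA : IsStarNormal A) (hfA : (spectrum ℂ A).Finite) (b : ℂ) :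
    ep A b * A = b • ep A b := by
  have := ep_mul_cfc hfA b (fun z => z)
  rwa [cfc_id' ℂ A] at this

lemma mul_ep_self' (hA : IsStarNormal A) (hfA : (spectrum ℂ A).Finite) (b : ℂ) :
    A * ep A b = b • ep A b := by
  have := cfc_mul_ep hfA b (fun z => z)
  rwa [cfc_id' ℂ A] at this

lemma ep_mul_Pj (hfA : (spectrum ℂ A).Finite) (b : ℂ) (r : ℂ → ℂ) (j : ℂ) :
    ep A b * Pj A r j = (if r b = j then (1:ℂ) else 0) • ep A b :=
  ep_mul_cfc hfA b _

lemma norm_cfc_bool (A : 𝓐) (p : ℂ → Prop) [DecidablePred p] :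
    ‖cfc (fun z => if p z then (1:ℂ) else 0) A‖ ≤ 1 := by
  apply norm_cfc_le zero_le_one
  intro z _
  split_ifs <;> simp

lemma norm_ep (A : 𝓐) (b : ℂ) : ‖ep A b‖ ≤ 1 := norm_cfc_bool A _

lemma ep_dec (hA : IsStarNormal A) (hfA : (spectrum ℂ A).Finite) :
    Dec hfA.toFinset (ep A) :=
  dec_of hA hfA id (fun z hz => by simpa using hz)

variable {r : ℂ → ℂ} {J : Finset ℂ} (hJA : ∀ z ∈ spectrum ℂ A, r z ∈ J)
  (hJB : ∀ z ∈ spectrum ℂ B, r z ∈ J)

include hA hB hfA hfB hJA hJB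

lemma ep_SS {b : ℂ} (hb : b ∈ spectrum ℂ B) :
    ep B b * SS A B r J = ep B b * Pj A r (r b) := by
  unfold SS
  rw [Finset.mul_sum, Finset.sum_eq_single (r b)]
  · rw [← mul_assoc, ep_mul_Pj hfB]; simp
  · intro j _ hj
    rw [← mul_assoc, ep_mul_Pj hfB, if_neg (Ne.symm hj)]; simp
  · intro h; exact absurd (hJB b hb) h

lemma ep_X {δ : ℝ} (hδ : 0 < δ) (hE : ‖B - A‖ ≤ 1)
    (hsep : ∀ a ∈ spectrum ℂ A, ∀ b ∈ spectrum ℂ B, r a ≠ r b → δ ≤ ‖b - a‖)
    {b : ℂ} (hb : b ∈ spectrum ℂ B) :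
    ‖ep B b * (1 - SS A B r J)‖ ≤ 1 / δ := by
  have hc := cont_fin (A := A) hfA
  set G : 𝓐 := cfc (fun z => if r z = r b then (0:ℂ) else (b - z)⁻¹) A with hG
  have hGn : ‖G‖ ≤ 1 / δ := by
    apply norm_cfc_le (by positivity)
    intro z hz
    split_ifs with h
    · simp; positivity
    · rw [norm_inv, one_div]
      exact inv_anti₀ hδ (hsep z hz b hb h)
  have h1 : ep B b * (1 - SS A B r J) = ep B b * (1 - Pj A r (r b)) := by
    rw [mul_sub, mul_sub, ep_SS hA hB hfA hfB hJA hJB hb]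
  have h2 : (algebraMap ℂ 𝓐 b - A) * G = 1 - Pj A r (r b) := by
    have e1 : algebraMap ℂ 𝓐 b - A = cfc (fun z => b - z) A := by
      rw [cfc_sub (fun _ : ℂ => b) (fun z => z) A (hc _) (hc _), cfc_const b A, cfc_id' ℂ A]
    have e2 : 1 - Pj A r (r b) = cfc (fun z => 1 - (if r z = r b then (1:ℂ) else 0)) A := by
      rw [cfc_sub (fun _ : ℂ => (1:ℂ)) _ A (hc _) (hc _), cfc_const_one ℂ A]; rfl
    rw [e1, e2, hG, ← cfc_mul _ _ _ (hc _) (hc _)]
    apply cfc_congr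
    intro z hz
    by_cases h : r z = r b
    · simp [h]
    · have h5 := hsep z hz b hb h
      have h6 : b - z ≠ 0 := by
        intro h0; rw [h0, norm_zero] at h5; linarith
      simp [h, h6]
  have h3 : ep B b * (B - A) = ep B b * (algebraMap ℂ 𝓐 b - A) := by
    rw [mul_sub, mul_sub, ep_mul_self' hB hfB, Algebra.algebraMap_eq_smul_one, mul_smul_comm,
      mul_one]
  rw [h1, ← h2, ← mul_assoc, ← h3]
  have := mul_le_of (mul_le_of (norm_ep B b) hE) hGn
  linarith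

theorem norm_X_explicit {δ : ℝ} (hδ : 0 < δ) (hE : ‖B - A‖ ≤ 1)
    (hsep : ∀ a ∈ spectrum ℂ A, ∀ b ∈ spectrum ℂ B, r a ≠ r b → δ ≤ ‖b - a‖) :
    ‖1 - SS A B r J‖ ≤ Real.sqrt hfB.toFinset.card / δ := by
  set X := 1 - SS A B r J with hX
  have hd := ep_dec hB hfB
  have e1 : star X * X = ∑ b ∈ hfB.toFinset, star (ep B b * X) * (ep B b * X) := by
    calc star X * X = star X * ((∑ b ∈ hfB.toFinset, ep B b) * X) := by rw [hd.sum, one_mul]
      _ = ∑ b ∈ hfB.toFinset, star (ep B b * X) * (ep B b * X) := by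
        rw [Finset.sum_mul, Finset.mul_sum]
        apply Finset.sum_congr rfl
        intro b _
        rw [star_mul, hd.st]
        calc star X * (ep B b * X) = star X * ((ep B b * ep B b) * X) := by rw [hd.idem]
          _ = _ := by noncomm_ring
  have e2 : ‖star X * X‖ ≤ hfB.toFinset.card * (1 / δ) ^ 2 := by
    rw [e1]
    refine (norm_sum_le _ _).trans ?_
    rw [← nsmul_eq_mul, ← Finset.sum_const]
    apply Finset.sum_le_sum
    intro b hb
    rw [CStarRing.norm_star_mul_self]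
    have := ep_X hA hB hfA hfB hJA hJB hδ hE hsep (b := b) (by simpa using hb)
    nlinarith [norm_nonneg (ep B b * X)]
  rw [CStarRing.norm_star_mul_self] at e2
  have e3 : ‖X‖ ^ 2 ≤ (Real.sqrt hfB.toFinset.card / δ) ^ 2 := by
    rw [div_pow, Real.sq_sqrt (by positivity)]
    calc ‖X‖ ^ 2 = ‖X‖ * ‖X‖ := by ring
      _ ≤ _ := e2
      _ = _ := by ring
  exact le_of_sq_le_sq e3 (by positivity)

end

end Pool.Agent.R922.WN
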